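import Mathlib
import Pool.Agent.Lib.MP_fffc5a_co.T.Low

/-!
The lower bound: a star and `u` pairwise disjoint sets.
-/

set_option autoImplicit false

open Finset

namespace Pool.Agent.Lib.MP_fffc5a_co.V

/-- `u` pairwise disjoint `k`-sets in a set with at least `u k` elements (induction on `u`). -/
theorem exists_disj {α : Type*} [DecidableEq α] {k : ℕ} (hk : 1 ≤ k) (u : ℕ) (P : Finset α)
    (hP : u * k ≤ P.card) : ∃ D : Finset (Finset α), D.card = u ∧
      (∀ s ∈ D, s ⊆ P ∧ s.card = k) ∧ (D.biUnion id).card = u * k := by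
  induction u generalizing P with
  | zero => exact ⟨∅, rfl, fun s hs => absurd hs (notMem_empty s), by rw [biUnion_empty, card_empty, Nat.zero_mul]⟩
  | succ u ih =>
    rw [Nat.succ_mul] at hP
    obtain ⟨s, hs, hsc⟩ := exists_subset_card_eq (s := P) (n := k) (by omega)
    have hP' : u * k ≤ (P \ s).card := by
      rw [card_sdiff_of_subset hs]
      omega
    obtain ⟨D, hD, hDs, hDu⟩ := ih (P \ s) hP'
    have hsub : D.biUnion id ⊆ P \ s := biUnion_subset.2 fun t ht => (hDs t ht).1
    have hne : s.Nonempty := card_pos.1 (by omega)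
    have hsD : s ∉ D := by
      intro h
      obtain ⟨y, hy⟩ := hne
      exact (mem_sdiff.1 ((hDs s h).1 hy)).2 hy
    refine ⟨insert s D, ?_, ?_, ?_⟩
    · rw [card_insert_of_notMem hsD, hD]
    · intro t ht
      rcases mem_insert.1 ht with rfl | h
      · exact ⟨hs, hsc⟩
      · exact ⟨(hDs t h).1.trans sdiff_subset, (hDs t h).2⟩
    · rw [biUnion_insert, card_union_of_disjoint, hDu, Nat.succ_mul]
      · change s.card + u * k = u * k + k
        omega
      · change Disjoint s (D.biUnion id)
        rw [disjoint_left]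
        intro y hy hy'
        exact (mem_sdiff.1 (hsub hy')).2 hy

/-- `F = S ∪ D`, `S` = all `k`-sets containing `x`, `D` from `exists_disj` (`P = univ.erase x`).
`A`, `B` with `u`, `v` members and disjoint unions. If `x ∉ ⋃ A`: `A ⊆ D`, so `A = D`, and every
member of `B` is a member of the star disjoint from `⋃ D`: at most `C(n-u k-1,k-1) ≤ v-1`
(`T.card_star`). If `x ∈ ⋃ A` then `x ∉ ⋃ B`, `B ⊆ D`, so `v = u`, `B = D`, and the same with `A`. -/
theorem low_many {n k u v : ℕ} (hk : 1 ≤ k) (hu : 1 ≤ u) (huv : u ≤ v) (hn : (u + 1) * k ≤ n)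
    (hv : (n - u * k - 1).choose (k - 1) ≤ v - 1) :
    ∃ F : Finset (Finset (Fin n)), (∀ s ∈ F, s.card = k) ∧ UI u v F ∧
      (n - 1).choose (k - 1) + u ≤ F.card := by
  rw [Nat.succ_mul] at hn
  obtain ⟨x⟩ : Nonempty (Fin n) := ⟨⟨0, by omega⟩⟩
  have hcard : (univ.erase x : Finset (Fin n)).card = n - 1 := by
    rw [card_erase_of_mem (mem_univ x), card_univ, Fintype.card_fin]
  obtain ⟨D, hD, hDs, hDu⟩ := exists_disj hk u (univ.erase x : Finset (Fin n))
    (by rw [hcard]; omega)
  have hxU : x ∉ D.biUnion id := by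
    intro h
    obtain ⟨s, hs, hxs⟩ := mem_biUnion.1 h
    exact notMem_erase x univ ((hDs s hs).1 hxs)
  obtain ⟨S, hS⟩ : ∃ S : Finset (Finset (Fin n)),
      S = ((univ.erase x).powersetCard (k - 1)).image (insert x) := ⟨_, rfl⟩
  have hinj : ∀ U : Finset (Finset (Fin n)), (∀ s ∈ U, x ∉ s) →
      Set.InjOn (insert x) (U : Set (Finset (Fin n))) := by
    intro U hU s hs t ht hst
    have h1 := congrArg (fun z => erase z x) hst
    rwa [erase_insert (hU s (mem_coe.1 hs)), erase_insert (hU t (mem_coe.1 ht))] at h1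
  have hSx : ∀ s ∈ S, x ∈ s ∧ s.card = k := by
    intro s hs
    rw [hS, mem_image] at hs
    obtain ⟨t, ht, rfl⟩ := hs
    rw [mem_powersetCard] at ht
    have hxt : x ∉ t := fun h => notMem_erase x univ (ht.1 h)
    refine ⟨mem_insert_self x t, ?_⟩
    rw [card_insert_of_notMem hxt, ht.2]
    omega
  have hSc : S.card = (n - 1).choose (k - 1) := by
    rw [hS, card_image_of_injOn, card_powersetCard, hcard]
    exact hinj _ fun s hs h => notMem_erase x univ ((mem_powersetCard.1 hs).1 h)
  have hDx : ∀ s ∈ D, x ∉ s := fun s hs h => notMem_erase x univ ((hDs s hs).1 h)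
  -- the main point
  have key : ∀ X ⊆ S ∪ D, ∀ Y ⊆ S ∪ D, u ≤ X.card → x ∉ X.biUnion id →
      Disjoint (X.biUnion id) (Y.biUnion id) → Y.card ≤ v - 1 := by
    intro X hX Y hY hXu hxX hdis
    have hXD : X ⊆ D := by
      intro s hs
      rcases mem_union.1 (hX hs) with h | h
      · exact absurd (mem_biUnion.2 ⟨s, hs, (hSx s h).1⟩) hxX
      · exact h
    have hXD' : X = D := eq_of_subset_of_card_le hXD (by omega)
    subst hXD'
    refine le_trans ?_ hv
    have hsub : Y ⊆ ((univ \ insert x (X.biUnion id)).powersetCard (k - 1)).image (insert x) := by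
      intro B hB
      have hBd : Disjoint (X.biUnion id) B :=
        hdis.mono_right (subset_biUnion_of_mem id hB)
      rcases mem_union.1 (hY hB) with hBS | hBD
      · rw [hS, mem_image] at hBS
        obtain ⟨t, ht, rfl⟩ := hBS
        rw [mem_powersetCard] at ht
        refine mem_image.2 ⟨t, mem_powersetCard.2 ⟨?_, ht.2⟩, rfl⟩
        intro y hy
        rw [mem_sdiff, mem_insert]
        refine ⟨mem_univ y, ?_⟩
        rintro (rfl | hyG)
        · exact notMem_erase y univ (ht.1 hy)
        · exact disjoint_left.1 hBd hyG (mem_insert_of_mem hy)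
      · exfalso
        have hne : B.Nonempty := card_pos.1 (by rw [(hDs B hBD).2]; omega)
        obtain ⟨y, hy⟩ := hne
        exact disjoint_left.1 hBd (mem_biUnion.2 ⟨B, hBD, hy⟩) hy
    refine le_trans (card_le_card hsub) (le_trans card_image_le ?_)
    rw [card_powersetCard, card_sdiff_of_subset (subset_univ _), card_insert_of_notMem hxU,
      card_univ, Fintype.card_fin, hDu]
    exact le_of_eq (by rw [show n - (u * k + 1) = n - u * k - 1 by omega])
  refine ⟨S ∪ D, ?_, ?_, ?_⟩
  · intro s hs
    rcases mem_union.1 hs with h | h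
    · exact (hSx s h).2
    · exact (hDs s h).2
  · intro A hA B hB hAu hBv hdis
    by_cases hxA : x ∈ A.biUnion id
    · have hxB : x ∉ B.biUnion id := disjoint_left.1 hdis hxA
      have hBD : B ⊆ D := by
        intro s hs
        rcases mem_union.1 (hB hs) with h | h
        · exact absurd (mem_biUnion.2 ⟨s, hs, (hSx s h).1⟩) hxB
        · exact h
      have h1 := card_le_card hBD
      have h2 := key B hB A hA (by omega) hxB hdis.symm
      omega
    · have h2 := key A hA B hB (by omega) hxA hdis
      omega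
  · rw [card_union_of_disjoint, hSc, hD]
    rw [disjoint_left]
    intro s hs hs'
    exact hDx s hs' (hSx s hs).1

end Pool.Agent.Lib.MP_fffc5a_co.V
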