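import Mathlib

/-!
Convexity of `d ↦ C(d,u)`.
-/

set_option autoImplicit false

open Finset

namespace Pool.Agent.Lib.MP_fffc5a_co.V

theorem tangent_up (w s k : ℕ) :
    s.choose (w + 1) + k * s.choose w ≤ (s + k).choose (w + 1) := by
  induction k with
  | zero => simp
  | succ k ih =>
    have h1 : (s + (k + 1)).choose (w + 1) = (s + k).choose w + (s + k).choose (w + 1) :=
      Nat.choose_succ_succ (s + k) w
    have h2 : s.choose w ≤ (s + k).choose w := Nat.choose_le_choose w (Nat.le_add_right s k)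
    rw [h1, add_mul, one_mul]
    omega

theorem tangent_down (w d k : ℕ) :
    (d + k).choose (w + 1) ≤ d.choose (w + 1) + k * (d + k).choose w := by
  induction k with
  | zero => simp
  | succ k ih =>
    have h1 : (d + (k + 1)).choose (w + 1) = (d + k).choose w + (d + k).choose (w + 1) :=
      Nat.choose_succ_succ (d + k) w
    have h2 : (d + k).choose w ≤ (d + (k + 1)).choose w :=
      Nat.choose_le_choose w (by omega)
    have h3 : k * (d + k).choose w ≤ k * (d + (k + 1)).choose w := Nat.mul_le_mul_left k h2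
    rw [h1, add_mul, one_mul]
    omega

/-- `C(s+1,u) - C(s,u) = C(s,u-1)` is increasing in `s`: for `d ≥ s` induction on `d`, for `d ≤ s`
induction on `s - d`. -/
theorem tangent {u : ℕ} (hu : 1 ≤ u) (d s : ℕ) :
    s.choose u + d * s.choose (u - 1) ≤ d.choose u + s * s.choose (u - 1) := by
  obtain ⟨w, rfl⟩ : ∃ w, u = w + 1 := ⟨u - 1, by omega⟩
  rw [Nat.add_sub_cancel]
  rcases le_total s d with h | h
  · obtain ⟨k, rfl⟩ := Nat.exists_eq_add_of_le h
    have h1 := tangent_up w s k
    rw [add_mul]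
    omega
  · obtain ⟨k, rfl⟩ := Nat.exists_eq_add_of_le h
    have h1 := tangent_down w d k
    rw [add_mul]
    omega

/-- Sum of `tangent` over `Y`, and `C(s,u) ≤ s C(s,u-1)` for the missing `N - |Y|` terms. -/
theorem jensen {ι : Type*} (Y : Finset ι) (f : ι → ℕ) {u s N : ℕ} (hu : 1 ≤ u)
    (hY : Y.card ≤ N) (h : s * N ≤ ∑ i ∈ Y, f i) :
    N * s.choose u ≤ ∑ i ∈ Y, (f i).choose u := by
  obtain ⟨r, rfl⟩ := Nat.exists_eq_add_of_le hY
  have h1 : ∑ i ∈ Y, (s.choose u + f i * s.choose (u - 1)) ≤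
      ∑ i ∈ Y, ((f i).choose u + s * s.choose (u - 1)) :=
    Finset.sum_le_sum fun i _ => tangent hu (f i) s
  rw [Finset.sum_add_distrib, Finset.sum_add_distrib, Finset.sum_const, Finset.sum_const,
    smul_eq_mul, smul_eq_mul, ← Finset.sum_mul] at h1
  have h2 : s.choose u ≤ s * s.choose (u - 1) := by
    have h3 := tangent hu 0 s
    have h4 : (0 : ℕ).choose u = 0 := Nat.choose_eq_zero_of_lt (by omega)
    rw [h4] at h3
    omega
  have h5 := Nat.mul_le_mul_right (s.choose (u - 1)) h
  have h6 := Nat.mul_le_mul_left r h2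
  nlinarith

/-- `Nat.pow_sub_le_descFactorial`, `Nat.descFactorial_eq_factorial_mul_choose`. -/
theorem pow_le_choose {u s : ℕ} (h : 2 * u ≤ s) :
    s ^ u ≤ 2 ^ u * (u.factorial * s.choose u) := by
  rw [← Nat.descFactorial_eq_factorial_mul_choose]
  calc s ^ u ≤ (2 * (s + 1 - u)) ^ u := Nat.pow_le_pow_left (by omega) u
    _ = 2 ^ u * (s + 1 - u) ^ u := mul_pow _ _ _
    _ ≤ 2 ^ u * s.descFactorial u := Nat.mul_le_mul_left _ (Nat.pow_sub_le_descFactorial s u)

end Pool.Agent.Lib.MP_fffc5a_co.V
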