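import Mathlib
import Pool.Agent.Lib.MP_fffc5a_co.V.Jen
import Pool.Agent.Lib.MP_fffc5a_co.Kst

/-!
Koevari-Sos-Turan with convexity.
-/

set_option autoImplicit false

open Finset

namespace Pool.Agent.Lib.MP_fffc5a_co.V

/-- Double counting of the pairs `(T, B)`, `T ⊆ X` with `u` members all disjoint from `B ∈ Y`;
`common_nbrs` for every `T` (as in `kst_small` in Kst). -/
theorem kst_sum {α : Type*} [DecidableEq α] {u v : ℕ} (hv : 1 ≤ v) {F X Y : Finset (Finset α)}
    (hUI : UI u v F) (hX : X ⊆ F) (hY : Y ⊆ F) :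
    ∑ B ∈ Y, ((X.filter fun G => Disjoint G B).card).choose u ≤ X.card.choose u * (v - 1) := by
  have h2 : ∑ B ∈ Y, ((X.filter fun G => Disjoint G B).card).choose u =
      ∑ T ∈ X.powersetCard u, (Y.filter fun B => ∀ G ∈ T, Disjoint G B).card := by
    have h3 : ∀ B ∈ Y, ((X.filter fun G => Disjoint G B).card).choose u =
        ((X.powersetCard u).filter fun T => ∀ G ∈ T, Disjoint G B).card := by
      intro B _
      rw [← Finset.card_powersetCard]
      congr 1
      ext T
      simp only [Finset.mem_powersetCard, Finset.mem_filter]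
      constructor
      · rintro ⟨h, hc⟩
        exact ⟨⟨h.trans (Finset.filter_subset _ _), hc⟩, fun G hG => (Finset.mem_filter.1 (h hG)).2⟩
      · rintro ⟨⟨h, hc⟩, hd⟩
        exact ⟨fun G hG => Finset.mem_filter.2 ⟨h hG, hd G hG⟩, hc⟩
    rw [Finset.sum_congr rfl h3]
    exact (Finset.sum_card_bipartiteAbove_eq_sum_card_bipartiteBelow
      (fun T B => ∀ G ∈ T, Disjoint G B) (s := X.powersetCard u) (t := Y)).symm
  rw [h2]
  calc ∑ T ∈ X.powersetCard u, (Y.filter fun B => ∀ G ∈ T, Disjoint G B).card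
      ≤ ∑ _T ∈ X.powersetCard u, (v - 1) := by
        refine Finset.sum_le_sum fun T hT => ?_
        rw [Finset.mem_powersetCard] at hT
        exact (Finset.card_le_card (Finset.filter_subset_filter _ hY)).trans
          (common_nbrs hv hUI (hT.1.trans hX) hT.2)
    _ = (X.card.choose u) * (v - 1) := by
        rw [Finset.sum_const, Finset.card_powersetCard, smul_eq_mul]

/-- `jensen`, `kst_sum`, `pow_le_choose`, `u! C(|X|,u) ≤ |X|^u`. -/
theorem kst_pow {α : Type*} [DecidableEq α] {u v s N : ℕ} (hu : 1 ≤ u) (hv : 1 ≤ v)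
    {F X Y : Finset (Finset α)} (hUI : UI u v F) (hX : X ⊆ F) (hY : Y ⊆ F) (hs : 2 * u ≤ s)
    (hYN : Y.card ≤ N) (h : s * N ≤ ∑ B ∈ Y, (X.filter fun G => Disjoint G B).card) :
    N * s ^ u ≤ 2 ^ u * (X.card ^ u * (v - 1)) := by
  have h1 := jensen Y (fun B => (X.filter fun G => Disjoint G B).card) hu hYN h
  have h2 := h1.trans (kst_sum (u := u) hv hUI hX hY)
  have h3 : u.factorial * X.card.choose u ≤ X.card ^ u := by
    rw [← Nat.descFactorial_eq_factorial_mul_choose]
    exact Nat.descFactorial_le_pow _ _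
  calc N * s ^ u ≤ N * (2 ^ u * (u.factorial * s.choose u)) :=
        Nat.mul_le_mul_left _ (pow_le_choose hs)
    _ = 2 ^ u * (u.factorial * (N * s.choose u)) := by ring
    _ ≤ 2 ^ u * (u.factorial * (X.card.choose u * (v - 1))) :=
        Nat.mul_le_mul_left _ (Nat.mul_le_mul_left _ h2)
    _ = 2 ^ u * (u.factorial * X.card.choose u * (v - 1)) := by ring
    _ ≤ 2 ^ u * (X.card ^ u * (v - 1)) := Nat.mul_le_mul_left _ (Nat.mul_le_mul_right _ h3)

end Pool.Agent.Lib.MP_fffc5a_co.V
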