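import Mathlib

/-!
Inequalities between `T = C(k-1+b,k-1)`, `W = C(k+a-1,k-1)`, `L = C(2k+a-1,k-1)`,
`a = (u-1) k + b`.
-/

set_option autoImplicit false

open Finset

namespace Pool.Agent.Lib.MP_fffc5a_co.V

/-- Bernoulli: `1 - u k / N ≤ (1 - k / N)^u` (`one_add_mul_le_pow`). -/
theorem pow_bern {u k N : ℕ} (hu : 1 ≤ u) (h : u * k ≤ N) :
    (N - u * k) * N ^ (u - 1) ≤ (N - k) ^ u := by
  induction u, hu using Nat.le_induction with
  | base => simp
  | succ u hu ih =>
    obtain ⟨r, hr⟩ := Nat.exists_eq_add_of_le h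
    have h1 : u * k ≤ N := le_trans (Nat.mul_le_mul_right k (Nat.le_succ u)) h
    have ih' := ih h1
    have e1 : N - (u + 1) * k = r := by omega
    have e2 : N - u * k = r + k := by
      rw [hr]
      have : (u + 1) * k = u * k + k := by ring
      omega
    have e3 : N - k = u * k + r := by
      rw [hr]
      have : (u + 1) * k = u * k + k := by ring
      omega
    rw [e2] at ih'
    rw [e1, Nat.add_sub_cancel, pow_succ (N - k) u]
    have e4 : N ^ u = N ^ (u - 1) * N := by
      rw [← pow_succ, Nat.sub_add_cancel hu]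
    calc r * N ^ u = N ^ (u - 1) * (r * N) := by rw [e4]; ring
      _ ≤ N ^ (u - 1) * ((r + k) * (N - k)) := by
          refine Nat.mul_le_mul_left _ ?_
          rw [e3, hr]
          nlinarith [Nat.zero_le (u * k * k)]
      _ = (r + k) * N ^ (u - 1) * (N - k) := by ring
      _ ≤ (N - k) ^ u * (N - k) := Nat.mul_le_mul_right _ ih'

/-- Factorwise `pow_bern` with `N = 2k+a-1-i`, `i < k-1` (`Nat.descFactorial_eq_prod_range`,
`Nat.descFactorial_eq_factorial_mul_choose`). -/
theorem choose_bern {u k a b : ℕ} (hu : 1 ≤ u) (hk : 1 ≤ k) (hab : a + k = u * k + b) :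
    (k - 1 + b).choose (k - 1) * ((2 * k + a - 1).choose (k - 1)) ^ (u - 1) ≤
      ((k + a - 1).choose (k - 1)) ^ u := by
  have key : (k - 1 + b).descFactorial (k - 1) * ((2 * k + a - 1).descFactorial (k - 1)) ^ (u - 1)
      ≤ ((k + a - 1).descFactorial (k - 1)) ^ u := by
    rw [Nat.descFactorial_eq_prod_range, Nat.descFactorial_eq_prod_range,
      Nat.descFactorial_eq_prod_range, ← Finset.prod_pow, ← Finset.prod_pow,
      ← Finset.prod_mul_distrib]
    refine Finset.prod_le_prod' fun i hi => ?_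
    rw [Finset.mem_range] at hi
    have h1 : u * k ≤ 2 * k + a - 1 - i := by omega
    have h2 := pow_bern hu h1
    have e1 : 2 * k + a - 1 - i - u * k = k - 1 + b - i := by omega
    have e2 : 2 * k + a - 1 - i - k = k + a - 1 - i := by omega
    rw [e1, e2] at h2
    exact h2
  rw [Nat.descFactorial_eq_factorial_mul_choose, Nat.descFactorial_eq_factorial_mul_choose,
    Nat.descFactorial_eq_factorial_mul_choose, mul_pow, mul_pow] at key
  have hpos : 0 < (Nat.factorial (k - 1)) ^ u := pow_pos (Nat.factorial_pos _) u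
  refine Nat.le_of_mul_le_mul_left ?_ hpos
  have e : (Nat.factorial (k - 1)) ^ u = Nat.factorial (k - 1) * (Nat.factorial (k - 1)) ^ (u - 1) := by
    rw [← pow_succ', Nat.sub_add_cancel hu]
  calc (Nat.factorial (k - 1)) ^ u * ((k - 1 + b).choose (k - 1) *
        ((2 * k + a - 1).choose (k - 1)) ^ (u - 1))
      = Nat.factorial (k - 1) * (k - 1 + b).choose (k - 1) * ((Nat.factorial (k - 1)) ^ (u - 1) *
        ((2 * k + a - 1).choose (k - 1)) ^ (u - 1)) := by rw [e]; ring
    _ ≤ _ := key

/-- Factorwise: `2k+a-1-i ≤ 2 (k+a-1-i)` for `i < k-1`. -/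
theorem l_le_w {k a : ℕ} (hk : 1 ≤ k) (ha : k ≤ a) :
    (2 * k + a - 1).choose (k - 1) ≤ 2 ^ (k - 1) * (k + a - 1).choose (k - 1) := by
  have key : (2 * k + a - 1).descFactorial (k - 1) ≤
      2 ^ (k - 1) * (k + a - 1).descFactorial (k - 1) := by
    have e : (2 : ℕ) ^ (k - 1) = ∏ _i ∈ Finset.range (k - 1), 2 := by
      rw [Finset.prod_const, Finset.card_range]
    rw [Nat.descFactorial_eq_prod_range, Nat.descFactorial_eq_prod_range, e,
      ← Finset.prod_mul_distrib]
    refine Finset.prod_le_prod' fun i hi => ?_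
    rw [Finset.mem_range] at hi
    omega
  rw [Nat.descFactorial_eq_factorial_mul_choose, Nat.descFactorial_eq_factorial_mul_choose] at key
  refine Nat.le_of_mul_le_mul_left ?_ (Nat.factorial_pos (k - 1))
  calc _ ≤ _ := key
    _ = _ := by ring

end Pool.Agent.Lib.MP_fffc5a_co.V
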