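import Mathlib
import Pool.Agent.Lib.MP_fffc5a_co.T.StarSpec

/-!
Extras and missing sets of a star: the number of disjoint pairs, spectral bound.
-/

set_option autoImplicit false

open Finset

namespace Pool.Agent.Lib.MP_fffc5a_co.V

open Pool.Agent.Lib.MP_fffc5a_co.T

/-- As `T.star_spec`, with the average instead of the maximum degree. -/
theorem edge_spec {β : Type*} [Fintype β] [DecidableEq β] {k a : ℕ} (hk : 2 ≤ k) (ha : 1 ≤ a)
    (hN : Fintype.card β = 2 * k + a - 1) {E M : Finset (Finset β)} (hE : ∀ s ∈ E, s.card = k)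
    (hM : ∀ s ∈ M, s.card = k + a)
    (hEM : M.card < E.card) (hML : 4 * M.card ≤ (2 * k + a - 1).choose (k - 1)) :
    (k + a - 1).choose a * a * E.card ≤ 4 * (k + a - 1) *
      ∑ G ∈ E, ((powersetCard (k + a) univ).filter fun Y => G ⊆ Y ∧ Y ∉ M).card := by
  classical
  obtain ⟨m, rfl⟩ : ∃ m, k = m + 2 := ⟨k - 2, by omega⟩
  have e1 : m + 2 + a - 1 = m + a + 1 := by omega
  have e2 : 2 * (m + 2) + a - 1 = 2 * m + a + 3 := by omega
  rw [e1]
  rw [e2] at hN hML
  have e3 : m + 2 - 1 = m + 1 := by omega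
  rw [e3] at hML
  have hLs : (2 * m + a + 3).choose (m + 1) = (2 * m + a + 3).choose (m + 2 + a) :=
    Nat.choose_symm_of_eq_add (by ring)
  rw [hLs] at hML
  obtain ⟨L, hLdef⟩ : ∃ L, L = (2 * m + a + 3).choose (m + 2 + a) := ⟨_, rfl⟩
  obtain ⟨V, hVdef⟩ : ∃ V, V = (2 * m + a + 3).choose (m + 2) := ⟨_, rfl⟩
  obtain ⟨W, hWdef⟩ : ∃ W, W = (m + a + 1).choose a := ⟨_, rfl⟩
  obtain ⟨W2, hW2def⟩ : ∃ W2, W2 = (m + a).choose a := ⟨_, rfl⟩
  obtain ⟨C, hCdef⟩ : ∃ C, C = (m + 2 + a).choose (m + 2) := ⟨_, rfl⟩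
  rw [← hLdef] at hML
  rw [← hWdef]
  have hLpos : 0 < L := by rw [hLdef]; exact Nat.choose_pos (by omega)
  have hVpos : 0 < V := by rw [hVdef]; exact Nat.choose_pos (by omega)
  have hWpos : 0 < W := by rw [hWdef]; exact Nat.choose_pos (by omega)
  -- relations between the binomial coefficients
  have r1 : V * (m + 2) = L * (m + 2 + a) := by
    have h := Nat.choose_succ_right_eq (2 * m + a + 3) (m + 1)
    have h2 : 2 * m + a + 3 - (m + 1) = m + 2 + a := by omega
    rw [h2] at h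
    rw [hVdef, hLdef, ← hLs]
    exact h
  have r2 : W2 * (m + a + 1) = W * (m + 1) := by
    have h := Nat.choose_mul_succ_eq (m + a) a
    have h2 : m + a + 1 - a = m + 1 := by omega
    rw [h2] at h
    rw [hW2def, hWdef]
    exact h
  have r3 : C * L = V * W := by
    -- `C(N,k+a) C(k+a,k) = C(N,k) C(N-k,a)`
    have h := Nat.choose_mul (n := 2 * m + a + 3) (k := m + 2 + a) (s := m + 2) (by omega)
    have h2 : 2 * m + a + 3 - (m + 2) = m + a + 1 := by omega
    have h3 : m + 2 + a - (m + 2) = a := by omega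
    rw [h2, h3] at h
    rw [hCdef, hLdef, hVdef, hWdef, mul_comm]
    exact h
  -- the two means
  obtain ⟨ν, hν⟩ : ∃ ν : ℝ, ν = (E.card : ℝ) / V := ⟨_, rfl⟩
  obtain ⟨μ, hμ⟩ : ∃ μ : ℝ, μ = (M.card : ℝ) / L := ⟨_, rfl⟩
  have hVR : (0 : ℝ) < V := by exact_mod_cast hVpos
  have hLR : (0 : ℝ) < L := by exact_mod_cast hLpos
  have hWR : (0 : ℝ) < W := by exact_mod_cast hWpos
  have hνV : ν * ((Fintype.card β).choose (m + 2) : ℝ) = E.card := by
    rw [hN, ← hVdef, hν]
    field_simp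
  have hμL : μ * ((Fintype.card β).choose (m + 2 + a) : ℝ) = M.card := by
    rw [hN, ← hLdef, hμ]
    field_simp
  have hnE := h5_nsq hE hνV
  have hnM := h5_nsq hM hμL
  obtain ⟨h, hh⟩ : ∃ h : Finset β → ℝ, h = fun Z => ind E Z - ν := ⟨_, rfl⟩
  have hh0 : ∀ J : Finset β, J.card = 0 → (Dn^[m + 2 - 0] h) J = 0 := by
    have h1 := sum_dn_iter (β := β) (m + 2) 0 h
    rw [Nat.zero_add, hh, h5_sum_zero hE hνV, mul_zero] at h1
    simp only [Nat.factorial_zero, Nat.cast_one, one_mul, powersetCard_zero, sum_singleton] at h1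
    intro J hJ
    rw [card_eq_zero.1 hJ, Nat.sub_zero, hh]
    exact h1
  have hup := up_orth (d := 0) (r := m + 2) (by omega) a (by rw [hN]; omega) hh0
  rw [hN, ss_prod, ← hWdef, ← hW2def] at hup
  -- the function `S Y = ∑_{J ⊆ Y} h J`
  obtain ⟨S, hS⟩ : ∃ S : Finset β → ℝ, S = fun Y => ∑ J ∈ powersetCard (m + 2) Y, h J := ⟨_, rfl⟩
  have hfa : (0 : ℝ) < (a.factorial : ℝ) := by exact_mod_cast Nat.factorial_pos a
  have hSU : ∀ Y ∈ powersetCard (m + 2 + a) (univ : Finset β),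
      (Up^[a] h) Y = a.factorial * S Y := by
    intro Y hY
    rw [up_iter_formula h a (m + 2) Y (mem_powersetCard.1 hY).2, hS]
  have hSn : nsq (m + 2 + a) S ≤ (W : ℝ) * W2 * nsq (m + 2) h := by
    have h1 : nsq (m + 2 + a) (Up^[a] h) = (a.factorial : ℝ) ^ 2 * nsq (m + 2 + a) S := by
      unfold nsq
      rw [mul_sum]
      refine sum_congr rfl fun Y hY => ?_
      rw [hSU Y hY]
      ring
    rw [h1] at hup
    have h2 : (a.factorial : ℝ) ^ 2 * nsq (m + 2 + a) S ≤
        (a.factorial : ℝ) ^ 2 * ((W : ℝ) * W2 * nsq (m + 2) h) := by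
      refine hup.trans (le_of_eq ?_)
      ring
    exact le_of_mul_le_mul_left h2 (by positivity)
  have hS0 : ∑ Y ∈ powersetCard (m + 2 + a) (univ : Finset β), S Y = 0 := by
    have h1 := sum_up_iter a (m + 2) (by rw [hN]; omega) h
    rw [sum_congr rfl hSU, ← mul_sum] at h1
    have h2 : ∑ Z ∈ powersetCard (m + 2) (univ : Finset β), h Z = 0 := by
      rw [hh]
      exact h5_sum_zero hE hνV
    rw [h2, mul_zero] at h1
    rcases mul_eq_zero.1 h1 with h3 | h3
    · exact absurd h3 hfa.ne'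
    · exact h3
  -- the number of incidences
  have hcount : ∀ Y ∈ powersetCard (m + 2 + a) (univ : Finset β),
      ((E.filter fun s => s ⊆ Y).card : ℝ) = S Y + ν * C := by
    intro Y hY
    have hYc := (mem_powersetCard.1 hY).2
    have h1 : ((E.filter fun s => s ⊆ Y).card : ℝ) =
        ∑ J ∈ powersetCard (m + 2) Y, ind E J := by
      unfold ind
      rw [← sum_filter, sum_const, nsmul_eq_mul, mul_one]
      congr 2
      ext J
      simp only [mem_filter, mem_powersetCard]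
      exact ⟨fun ⟨h2, h3⟩ => ⟨⟨h3, hE J h2⟩, h2⟩, fun ⟨⟨h2, _⟩, h3⟩ => ⟨h3, h2⟩⟩
    rw [h1, hS]
    simp only [hh]
    rw [sum_sub_distrib, sum_const, card_powersetCard, hYc, nsmul_eq_mul, ← hCdef]
    ring
  have hMsub : M ⊆ powersetCard (m + 2 + a) (univ : Finset β) := fun Y hY =>
    mem_powersetCard.2 ⟨subset_univ _, hM Y hY⟩
  have hswap : ∑ Y ∈ M, ((E.filter fun s => s ⊆ Y).card : ℝ) =
      ∑ G ∈ E, ((M.filter fun Y => G ⊆ Y).card : ℝ) := by
    simp only [card_filter]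
    push_cast
    rw [sum_comm]
  obtain ⟨Q, hQ⟩ : ∃ Q : ℕ, Q = ∑ G ∈ E,
      ((powersetCard (m + 2 + a) (univ : Finset β)).filter fun Y => G ⊆ Y ∧ Y ∉ M).card := ⟨_, rfl⟩
  have hlow : (E.card : ℝ) * W - Q ≤ ∑ G ∈ E, ((M.filter fun Y => G ⊆ Y).card : ℝ) := by
    have h0 : E.card * W ≤ (∑ G ∈ E, (M.filter fun Y => G ⊆ Y).card) + Q := by
      rw [hQ, ← sum_add_distrib, ← smul_eq_mul, ← sum_const]
      refine sum_le_sum fun G hG => ?_
      have h2 : ((powersetCard (m + 2 + a) (univ : Finset β)).filter fun Y => G ⊆ Y).card = W := by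
        have h3 := e1_count G ∅ (disjoint_empty_right _) a
        rw [card_empty, Nat.add_zero, hE G hG, hN] at h3
        have h4 : 2 * m + a + 3 - (m + 2) = m + a + 1 := by omega
        rw [h4, ← hWdef] at h3
        rw [← h3]
        congr 1
        ext Y
        simp
      rw [← h2]
      refine le_trans (card_le_card ?_) (card_union_le _ _)
      intro Y hY
      rw [mem_filter] at hY
      rw [mem_union, mem_filter, mem_filter]
      by_cases hYM : Y ∈ M
      · exact Or.inl ⟨hYM, hY.2⟩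
      · exact Or.inr ⟨hY.1, hY.2, hYM⟩
    have h5 : (E.card : ℝ) * W ≤ (∑ G ∈ E, ((M.filter fun Y => G ⊆ Y).card : ℝ)) + Q := by
      exact_mod_cast h0
    linarith
  obtain ⟨R, hR⟩ : ∃ R : ℝ, R = ∑ Y ∈ powersetCard (m + 2 + a) (univ : Finset β),
    S Y * (ind M Y - μ) := ⟨_, rfl⟩
  have hRsum : ∑ Y ∈ M, ((E.filter fun s => s ⊆ Y).card : ℝ) = E.card * μ * W + R := by
    have h1 : ∑ Y ∈ M, ((E.filter fun s => s ⊆ Y).card : ℝ) = ∑ Y ∈ M, S Y + M.card * (ν * C) := by
      rw [sum_congr rfl fun Y hY => hcount Y (hMsub hY), sum_add_distrib, sum_const, nsmul_eq_mul]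
    have h2 : R = ∑ Y ∈ M, S Y := by
      rw [hR]
      have h3 : ∀ Y ∈ powersetCard (m + 2 + a) (univ : Finset β), S Y * (ind M Y - μ) =
          (if Y ∈ M then S Y else 0) - μ * S Y := by
        intro Y _
        unfold ind
        split_ifs <;> ring
      rw [sum_congr rfl h3, sum_sub_distrib, ← mul_sum, hS0, mul_zero, sub_zero, ← sum_filter]
      congr 1
      ext Y
      simp only [mem_filter]
      exact ⟨fun h4 => h4.2, fun h4 => ⟨hMsub h4, h4⟩⟩
    rw [h1, h2, hν, hμ]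
    have h3 : (C : ℝ) * L = V * W := by exact_mod_cast r3
    have h4 : (M.card : ℝ) * (E.card / V * C) = E.card * (M.card / L) * W := by
      field_simp
      linear_combination (M.card : ℝ) * E.card * h3
    rw [h4]
    ring
  have hR2 : R ^ 2 ≤ (W : ℝ) * ((W : ℝ) * (1 - (a : ℝ) / (m + a + 1))) * (E.card * (1 - ν)) *
      (M.card * (1 - μ)) := by
    have h1 : R ^ 2 ≤ nsq (m + 2 + a) S * nsq (m + 2 + a) (fun Z => ind M Z - μ) := by
      rw [hR]
      exact sum_mul_sq_le_sq_mul_sq _ _ _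
    have h2 : nsq (m + 2) h = E.card * (1 - ν) := by
      rw [hh, hnE, ← hνV]
      ring
    have h3 : nsq (m + 2 + a) (fun Z => ind M Z - μ) = M.card * (1 - μ) := by
      rw [hnM, ← hμL]
      ring
    have h4 : (W2 : ℝ) = W * (1 - (a : ℝ) / (m + a + 1)) := by
      have h5 : (W2 : ℝ) * (m + a + 1) = W * (m + 1) := by exact_mod_cast r2
      have h6 : ((m : ℝ) + a + 1) ≠ 0 := by positivity
      field_simp
      linear_combination h5
    rw [h2] at hSn
    rw [h3] at h1
    refine h1.trans ?_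
    rw [← h4]
    refine (mul_le_mul_of_nonneg_right hSn ?_).trans (le_of_eq ?_)
    · rw [← h3]
      exact h2_nsq_nonneg _ _
    · ring
  have hμ4 : μ ≤ 1 / 4 := by
    rw [hμ, div_le_iff₀ hLR]
    have h1 : (4 : ℝ) * M.card ≤ L := by exact_mod_cast hML
    linarith
  have hμ0 : 0 ≤ μ := by rw [hμ]; positivity
  have hν1 : ν ≤ 1 := by
    rw [hν, div_le_one hVR]
    have h1 := h5_card_le hE
    rw [hN, ← hVdef] at h1
    exact_mod_cast h1
  have ha0 : (0 : ℝ) ≤ a := Nat.cast_nonneg a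
  have hm0 : (0 : ℝ) ≤ m := Nat.cast_nonneg m
  have hme : (M.card : ℝ) ≤ E.card := by exact_mod_cast hEM.le
  have hνμ : (1 - (a : ℝ) / (m + a + 1)) * μ ≤ ν := by
    have h1 : (V : ℝ) * (m + 2) = L * (m + 2 + a) := by exact_mod_cast r1
    have h2 : (1 - (a : ℝ) / (m + a + 1)) ≤ (m + 2) / (m + 2 + a) := by
      have h6 : ((m : ℝ) + a + 1) ≠ 0 := by positivity
      have h3 : (1 - (a : ℝ) / (m + a + 1)) = (m + 1) / (m + a + 1) := by
        field_simp
        ring
      rw [h3, div_le_div_iff₀ (by positivity) (by positivity)]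
      nlinarith
    have h3 : ν = (m + 2) / (m + 2 + a) * (E.card / L) := by
      rw [hν]
      have h7 : ((m : ℝ) + 2 + a) ≠ 0 := by positivity
      field_simp
      linear_combination (-(E.card : ℝ)) * h1
    rw [h3, hμ]
    have h4 : (M.card : ℝ) / L ≤ E.card / L := div_le_div_of_nonneg_right hme hLR.le
    exact mul_le_mul h2 h4 (by positivity) (by positivity)
  have hE0 : (0 : ℝ) < E.card := by
    have : 0 < E.card := by omega
    exact_mod_cast this
  have hfin := ss_num (e := E.card) (m := M.card) (W := W) (t := (a : ℝ) / (m + a + 1)) (μ := μ)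
    (ν := ν) (d := (Q : ℝ) / E.card) (R := R) hE0 hWR (by positivity)
    (by rw [div_le_one (by positivity)]; linarith) hμ0 hμ4 hνμ hν1 hme hR2
    (by
      have h1 : (E.card : ℝ) * (W - Q / E.card) = E.card * W - Q := by
        field_simp
      rw [h1, ← hRsum, hswap]
      exact hlow)
  have h1 : (W : ℝ) * a * E.card ≤ 4 * (m + a + 1) * Q := by
    rw [mul_div_assoc', mul_div_assoc', div_le_div_iff₀ (by positivity) hE0] at hfin
    linarith
  rw [← hQ]
  exact_mod_cast h1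

end Pool.Agent.Lib.MP_fffc5a_co.V
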