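import Mathlib
import Pool.Agent.Lib.MP_fffc5a_co.V.EdgeSpec

/-!
The number of disjoint pairs between a large star and the other members.
-/

set_option autoImplicit false

open Finset

namespace Pool.Agent.Lib.MP_fffc5a_co.V

/-- the embedding of the complement of a point -/
private def se_em {n : ℕ} (x : Fin n) : {y : Fin n // y ≠ x} ↪ Fin n :=
  Function.Embedding.subtype _

private theorem se_not_mem {n : ℕ} (x : Fin n) (Y : Finset {y : Fin n // y ≠ x}) :
    x ∉ Y.map (se_em x) := by
  intro h
  obtain ⟨y, _, hy⟩ := Finset.mem_map.1 h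
  exact y.2 hy

private theorem se_surj {n : ℕ} (x : Fin n) {s : Finset (Fin n)} (hs : x ∉ s) :
    (s.subtype (fun y => y ≠ x)).map (se_em x) = s := by
  unfold se_em
  exact Finset.subtype_map_of_mem (fun y hy h => hs (h ▸ hy))

/-- As `T.star_degree` (T/StarDeg, copy its proof): `E`, `M` on the points different from `x`,
`edge_spec`; `a / (k+a-1) ≥ 1/2`, `C(k+a-1,a) = C(k+a-1,k-1)`. -/
theorem star_edges {k a : ℕ} (hk : 2 ≤ k) (ha : k ≤ a)
    {F : Finset (Finset (Fin (2 * k + a)))} (hF : ∀ s ∈ F, s.card = k) (x : Fin (2 * k + a))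
    (hcard : (2 * k + a - 1).choose (k - 1) < F.card)
    (h3 : 3 * (2 * k + a - 1).choose (k - 1) ≤ 4 * (F.filter fun s => x ∈ s).card) :
    (k + a - 1).choose (k - 1) * (F.filter fun s => x ∉ s).card ≤
      8 * ∑ G ∈ F.filter (fun s => x ∉ s),
        ((F.filter fun s => x ∈ s).filter fun B => Disjoint G B).card := by
  have hcardβ : Fintype.card {y : Fin (2 * k + a) // y ≠ x} = 2 * k + a - 1 := by
    rw [Fintype.card_subtype_compl]
    simp
  set E : Finset (Finset {y : Fin (2 * k + a) // y ≠ x}) :=
    univ.filter (fun Y => Y.map (se_em x) ∈ F) with hE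
  set M : Finset (Finset {y : Fin (2 * k + a) // y ≠ x}) :=
    (powersetCard (k + a) univ).filter (fun Y => (Y.map (se_em x))ᶜ ∉ F) with hM
  have hEimg : E.image (fun Y => Y.map (se_em x)) = F.filter fun s => x ∉ s := by
    ext s
    rw [Finset.mem_image, Finset.mem_filter]
    constructor
    · rintro ⟨Y, hY, rfl⟩
      exact ⟨(Finset.mem_filter.1 hY).2, se_not_mem x Y⟩
    · rintro ⟨hs, hxs⟩
      refine ⟨s.subtype (fun y => y ≠ x), ?_, se_surj x hxs⟩
      rw [hE, Finset.mem_filter]
      exact ⟨mem_univ _, by rw [se_surj x hxs]; exact hs⟩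
  have hEcard : E.card = (F.filter fun s => x ∉ s).card := by
    rw [← hEimg, Finset.card_image_of_injective E (Finset.map_injective (se_em x))]
  have hMcard : (F.filter fun s => x ∈ s).card + M.card = (2 * k + a - 1).choose (k - 1) := by
    have h1 : (F.filter fun s => x ∈ s).card =
        ((powersetCard (k + a) univ).filter
          (fun Y : Finset {y : Fin (2 * k + a) // y ≠ x} => (Y.map (se_em x))ᶜ ∈ F)).card := by
      symm
      have hinj : Function.Injective
          (fun Y : Finset {y : Fin (2 * k + a) // y ≠ x} => (Y.map (se_em x))ᶜ) :=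
        fun Y Y' h => Finset.map_injective (se_em x) (compl_injective h)
      rw [← Finset.card_image_of_injective _ hinj]
      congr 1
      ext s
      rw [Finset.mem_image, Finset.mem_filter]
      constructor
      · rintro ⟨Y, hY, rfl⟩
        exact ⟨(Finset.mem_filter.1 hY).2, Finset.mem_compl.2 (se_not_mem x Y)⟩
      · rintro ⟨hs, hxs⟩
        have hxs' : x ∉ sᶜ := fun h => (Finset.mem_compl.1 h) hxs
        refine ⟨sᶜ.subtype (fun y => y ≠ x), ?_, by rw [se_surj x hxs', compl_compl]⟩
        rw [Finset.mem_filter, Finset.mem_powersetCard]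
        refine ⟨⟨subset_univ _, ?_⟩, by rw [se_surj x hxs', compl_compl]; exact hs⟩
        rw [← Finset.card_map (se_em x), se_surj x hxs', Finset.card_compl, hF s hs,
          Fintype.card_fin]
        omega
    rw [h1, hM, Finset.card_filter_add_card_filter_not, Finset.card_powersetCard,
      Finset.card_univ, hcardβ]
    rw [← Nat.choose_symm (show k - 1 ≤ 2 * k + a - 1 by omega)]
    congr 1
    omega
  have hsplit : (F.filter fun s => x ∈ s).card + (F.filter fun s => x ∉ s).card = F.card :=
    Finset.card_filter_add_card_filter_not (fun s => x ∈ s)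
  have key := edge_spec hk (by omega) hcardβ (E := E) (M := M) (by
    intro s hs
    rw [← Finset.card_map (se_em x)]
    exact hF _ (Finset.mem_filter.1 hs).2) (by
    intro Y hY
    exact (Finset.mem_powersetCard.1 (Finset.mem_filter.1 hY).1).2) (by omega) (by omega)
  have hsum : ∑ G ∈ E, ((powersetCard (k + a) univ).filter fun Y => G ⊆ Y ∧ Y ∉ M).card ≤
      ∑ G ∈ F.filter (fun s => x ∉ s),
        ((F.filter fun s => x ∈ s).filter fun B => Disjoint G B).card := by
    rw [← hEimg, Finset.sum_image (fun Y _ Y' _ h => Finset.map_injective (se_em x) h)]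
    refine Finset.sum_le_sum fun G hG => ?_
    refine Finset.card_le_card_of_injOn (fun Y => (Y.map (se_em x))ᶜ) ?_ ?_
    · intro Y hY
      rw [Finset.mem_coe, Finset.mem_filter] at hY
      obtain ⟨hY1, hGY, hYM⟩ := hY
      rw [Finset.mem_coe, Finset.mem_filter, Finset.mem_filter]
      refine ⟨⟨?_, Finset.mem_compl.2 (se_not_mem x Y)⟩, ?_⟩
      · by_contra hcon
        exact hYM (Finset.mem_filter.2 ⟨hY1, hcon⟩)
      · rw [Finset.disjoint_right]
        intro b hb hbG
        exact (Finset.mem_compl.1 hb) (Finset.map_subset_map.2 hGY hbG)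
    · intro Y _ Y' _ h
      exact Finset.map_injective (se_em x) (compl_injective h)
  have hch : (k + a - 1).choose (k - 1) = (k + a - 1).choose a := by
    rw [← Nat.choose_symm (show k - 1 ≤ k + a - 1 by omega)]
    congr 1
    omega
  rw [hEcard] at key
  set e := (F.filter fun s => x ∉ s).card with he
  set S := ∑ G ∈ F.filter (fun s => x ∉ s),
        ((F.filter fun s => x ∈ s).filter fun B => Disjoint G B).card with hS
  rw [hch]
  set ch := (k + a - 1).choose a with hchd
  have h1 : ch * a * e ≤ 4 * (k + a - 1) * S := key.trans (Nat.mul_le_mul_left _ hsum)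
  have h2 : (k + a - 1) * (ch * e) ≤ (k + a - 1) * (8 * S) := by
    have h4 : k + a - 1 ≤ 2 * a := by omega
    calc (k + a - 1) * (ch * e) ≤ 2 * a * (ch * e) := Nat.mul_le_mul_right _ h4
      _ = 2 * (ch * a * e) := by ring
      _ ≤ 2 * (4 * (k + a - 1) * S) := Nat.mul_le_mul_left _ h1
      _ = (k + a - 1) * (8 * S) := by ring
  exact Nat.le_of_mul_le_mul_left h2 (by omega)

end Pool.Agent.Lib.MP_fffc5a_co.V
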