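import Mathlib
import Pool.Agent.Lib.MP_fffc5a_co.V.KstPow
import Pool.Agent.Lib.MP_fffc5a_co.V.NumA
import Pool.Agent.Lib.MP_fffc5a_co.V.StarEdges

/-!
There are few members outside the star.
-/

set_option autoImplicit false

open Finset

namespace Pool.Agent.Lib.MP_fffc5a_co.V

/-- The members of `F` which contain `x`: at most `C(2k+a-1,k-1)`. -/
theorem star_card_le {k a : ℕ} (hk : 1 ≤ k) {F : Finset (Finset (Fin (2 * k + a)))}
    (hF : ∀ s ∈ F, s.card = k) (x : Fin (2 * k + a)) :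
    (F.filter fun s => x ∈ s).card ≤ (2 * k + a - 1).choose (k - 1) := by
  have hsub : (F.filter fun s => x ∈ s) ⊆
      (powersetCard (k - 1) (univ.erase x)).image (insert x) := by
    intro s hs
    rw [mem_filter] at hs
    rw [mem_image]
    refine ⟨s.erase x, ?_, insert_erase hs.2⟩
    rw [mem_powersetCard]
    refine ⟨erase_subset_erase x (subset_univ s), ?_⟩
    rw [card_erase_of_mem hs.2, hF s hs.1]
  have hcard : (univ.erase x : Finset (Fin (2 * k + a))).card = 2 * k + a - 1 := by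
    rw [card_erase_of_mem (mem_univ x), card_univ, Fintype.card_fin]
  calc (F.filter fun s => x ∈ s).card
      ≤ ((powersetCard (k - 1) (univ.erase x)).image (insert x)).card := card_le_card hsub
    _ ≤ (powersetCard (k - 1) (univ.erase x)).card := card_image_le
    _ = (2 * k + a - 1).choose (k - 1) := by rw [card_powersetCard, hcard]

private theorem big_num {k u v e L W T S : ℕ} (hu : 2 ≤ u)
    (hT : (8 * 10 ^ 6) ^ u * (v - 1) < T) (hL : 0 < L) (hLW : L ≤ 2 ^ (k - 1) * W)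
    (hk : 2 ≤ k) (hB : T * L ^ (u - 1) ≤ W ^ u) (hS : W * e ≤ 8 * S)
    (hK : ∀ s : ℕ, 2 * u ≤ s → s * L ≤ S → L * s ^ u ≤ 2 ^ u * (e ^ u * (v - 1))) :
    e < 8 * u * 2 ^ k := by
  by_contra hlt
  push Not at hlt
  have hkk : 2 ^ k = 2 * 2 ^ (k - 1) := by
    rw [← pow_succ']
    congr 1
    omega
  have he : 0 < e := by
    have : 0 < 8 * u * 2 ^ k := by positivity
    omega
  have h1 : 16 * u * L ≤ W * e := by
    calc 16 * u * L ≤ 16 * u * (2 ^ (k - 1) * W) := Nat.mul_le_mul_left _ hLW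
      _ = W * (8 * u * 2 ^ k) := by rw [hkk]; ring
      _ ≤ W * e := Nat.mul_le_mul_left _ hlt
  obtain ⟨s, hs⟩ : ∃ s, s = W * e / (8 * L) := ⟨_, rfl⟩
  have hL8 : 0 < 8 * L := by omega
  have hs2 : 2 * u ≤ s := by
    rw [hs, Nat.le_div_iff_mul_le hL8]
    calc 2 * u * (8 * L) = 16 * u * L := by ring
      _ ≤ W * e := h1
  have hs3 : s * (8 * L) ≤ W * e := by rw [hs]; exact Nat.div_mul_le_self _ _
  have hs4 : W * e < (s + 1) * (8 * L) := by
    rw [hs]
    have := Nat.lt_div_mul_add (a := W * e) hL8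
    calc W * e < W * e / (8 * L) * (8 * L) + 8 * L := this
      _ = (W * e / (8 * L) + 1) * (8 * L) := by ring
  have hs5 : W * e ≤ 16 * L * s := by
    have : (s + 1) * (8 * L) ≤ 16 * L * s := by nlinarith
    omega
  have hs6 : s * L ≤ S := by nlinarith
  have h2 := hK s hs2 hs6
  have h3 : W ^ u * e ^ u ≤ 32 ^ u * L ^ (u - 1) * (v - 1) * e ^ u := by
    calc W ^ u * e ^ u = (W * e) ^ u := (mul_pow _ _ _).symm
      _ ≤ (16 * L * s) ^ u := Nat.pow_le_pow_left hs5 u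
      _ = 16 ^ u * L ^ (u - 1) * (L * s ^ u) := by
        obtain ⟨w, rfl⟩ : ∃ w, u = w + 1 := ⟨u - 1, by omega⟩
        rw [Nat.add_sub_cancel, mul_pow, mul_pow, pow_succ L]
        ring
      _ ≤ 16 ^ u * L ^ (u - 1) * (2 ^ u * (e ^ u * (v - 1))) := Nat.mul_le_mul_left _ h2
      _ = (16 * 2) ^ u * L ^ (u - 1) * (v - 1) * e ^ u := by rw [mul_pow]; ring
      _ = 32 ^ u * L ^ (u - 1) * (v - 1) * e ^ u := by norm_num
  have h4 : W ^ u ≤ 32 ^ u * L ^ (u - 1) * (v - 1) :=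
    Nat.le_of_mul_le_mul_right h3 (by positivity)
  have h5 : T * L ^ (u - 1) ≤ 32 ^ u * (v - 1) * L ^ (u - 1) := by
    calc T * L ^ (u - 1) ≤ W ^ u := hB
      _ ≤ 32 ^ u * L ^ (u - 1) * (v - 1) := h4
      _ = 32 ^ u * (v - 1) * L ^ (u - 1) := by ring
  have h6 : T ≤ 32 ^ u * (v - 1) := Nat.le_of_mul_le_mul_right h5 (by positivity)
  have h7 : 32 ^ u * (v - 1) ≤ (8 * 10 ^ 6) ^ u * (v - 1) :=
    Nat.mul_le_mul_right _ (Nat.pow_le_pow_left (by norm_num) u)
  omega

/-- `e = |E|`, `E` = members without `x`, `L = C(2k+a-1,k-1)`, `W = C(k+a-1,k-1)`,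
`T = C(k-1+b,k-1)`. If `W e < 16 u L`: `l_le_w` gives `e < 16 u 2^(k-1)`. Otherwise
`s = W e / (8 L) ≥ 2u`, `s L ≤ ∑` by `star_edges`, `kst_pow` with `X = E`, `Y` = the star, `N = L`:
`L s^u ≤ 2^u e^u (v-1)`, `W e ≤ 16 L s`, so `W^u ≤ 32^u L^(u-1) (v-1)`, with `choose_bern`:
`T ≤ 32^u (v-1)`, contradiction. -/
theorem extras_few {k a b u v : ℕ} (hk : 2 ≤ k) (hu : 2 ≤ u) (hv : 2 ≤ v) (hb : 1 ≤ b)
    (hab : a + k = u * k + b)
    (hT : (8 * 10 ^ 6) ^ u * (v - 1) < (k - 1 + b).choose (k - 1))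
    {F : Finset (Finset (Fin (2 * k + a)))} (hF : ∀ s ∈ F, s.card = k) (hUI : UI u v F)
    (x : Fin (2 * k + a)) (hcard : (2 * k + a - 1).choose (k - 1) < F.card)
    (h3 : 3 * (2 * k + a - 1).choose (k - 1) ≤ 4 * (F.filter fun s => x ∈ s).card) :
    (F.filter fun s => x ∉ s).card < 8 * u * 2 ^ k := by
  have h2k : 2 * k ≤ u * k := Nat.mul_le_mul_right k hu
  have ha : k ≤ a := by omega
  have hS := star_edges hk ha hF x hcard h3
  have hcomm : ∑ G ∈ F.filter (fun s => x ∉ s),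
      ((F.filter fun s => x ∈ s).filter fun B => Disjoint G B).card =
      ∑ B ∈ F.filter (fun s => x ∈ s),
        ((F.filter fun s => x ∉ s).filter fun G => Disjoint G B).card := by
    simp only [card_filter]
    exact sum_comm
  rw [hcomm] at hS
  refine big_num hu hT (Nat.choose_pos (by omega)) (l_le_w (by omega) ha) hk
    (choose_bern (by omega) (by omega) hab) hS (fun s hs hsL => ?_)
  exact kst_pow (by omega) (by omega) hUI (filter_subset _ _) (filter_subset _ _) hs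
    (star_card_le (by omega) hF x) hsL

end Pool.Agent.Lib.MP_fffc5a_co.V
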