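import Mathlib
import Pool.Agent.Lib.MP_fffc5a_co.V.KstPow
import Pool.Agent.Lib.MP_fffc5a_co.V.NumA

/-!
A large union-intersecting family has few disjoint pairs.
-/

set_option autoImplicit false

open Finset

namespace Pool.Agent.Lib.MP_fffc5a_co.V

theorem few_pow {u : ℕ} (hu : 2 ≤ u) : 8 * 10 ^ 6 * u ≤ (8 * 10 ^ 6) ^ u := by
  obtain ⟨w, rfl⟩ : ∃ w, u = w + 1 := ⟨u - 1, by omega⟩
  have h1 : w + 1 ≤ 2 ^ w := Nat.lt_two_pow_self
  have h2 : 2 ^ w ≤ (8 * 10 ^ 6) ^ w := Nat.pow_le_pow_left (by norm_num) w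
  calc 8 * 10 ^ 6 * (w + 1) ≤ 8 * 10 ^ 6 * (8 * 10 ^ 6) ^ w :=
        Nat.mul_le_mul_left _ (h1.trans h2)
    _ = (8 * 10 ^ 6) ^ (w + 1) := (pow_succ' (8 * 10 ^ 6) w).symm

/-- the arithmetic of `dp_few` -/
theorem few_num {u v s W L T : ℕ} (hu : 2 ≤ u) (hL : 1 ≤ L)
    (hT : (8 * 10 ^ 6) ^ u * (v - 1) < T) (hW : W ≤ 2 * 10 ^ 6 * s)
    (hB : T * L ^ (u - 1) ≤ W ^ u)
    (hk : (L + 1) * s ^ u ≤ 2 ^ u * ((L + 1) ^ u * (v - 1))) : False := by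
  obtain ⟨w, rfl⟩ : ∃ w, u = w + 1 := ⟨u - 1, by omega⟩
  rw [Nat.add_sub_cancel] at hB
  have h1 : s ^ (w + 1) ≤ 2 ^ (w + 1) * ((L + 1) ^ w * (v - 1)) := by
    refine Nat.le_of_mul_le_mul_left ?_ (Nat.succ_pos L)
    calc (L + 1) * s ^ (w + 1) ≤ 2 ^ (w + 1) * ((L + 1) ^ (w + 1) * (v - 1)) := hk
      _ = (L + 1) * (2 ^ (w + 1) * ((L + 1) ^ w * (v - 1))) := by rw [pow_succ (L + 1) w]; ring
  have h2 : (L + 1) ^ w ≤ 2 ^ (w + 1) * L ^ w := by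
    calc (L + 1) ^ w ≤ (2 * L) ^ w := Nat.pow_le_pow_left (by omega) w
      _ = 2 ^ w * L ^ w := mul_pow _ _ _
      _ ≤ 2 ^ (w + 1) * L ^ w :=
          Nat.mul_le_mul_right _ (Nat.pow_le_pow_right (by norm_num) (Nat.le_succ w))
  have h3 : T * L ^ w ≤ ((8 * 10 ^ 6) ^ (w + 1) * (v - 1)) * L ^ w := by
    calc T * L ^ w ≤ W ^ (w + 1) := hB
      _ ≤ (2 * 10 ^ 6 * s) ^ (w + 1) := Nat.pow_le_pow_left hW _
      _ = (2 * 10 ^ 6) ^ (w + 1) * s ^ (w + 1) := mul_pow _ _ _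
      _ ≤ (2 * 10 ^ 6) ^ (w + 1) * (2 ^ (w + 1) * ((L + 1) ^ w * (v - 1))) :=
          Nat.mul_le_mul_left _ h1
      _ ≤ (2 * 10 ^ 6) ^ (w + 1) * (2 ^ (w + 1) * ((2 ^ (w + 1) * L ^ w) * (v - 1))) :=
          Nat.mul_le_mul_left _ (Nat.mul_le_mul_left _ (Nat.mul_le_mul_right _ h2))
      _ = ((8 * 10 ^ 6) ^ (w + 1) * (v - 1)) * L ^ w := by
          have e : (8 * 10 ^ 6 : ℕ) ^ (w + 1) = (2 * 10 ^ 6) ^ (w + 1) * (2 ^ (w + 1) * 2 ^ (w + 1)) := by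
            rw [← mul_pow, ← mul_pow]
            norm_num
          rw [e]
          ring
  have h4 : T ≤ (8 * 10 ^ 6) ^ (w + 1) * (v - 1) :=
    Nat.le_of_mul_le_mul_right h3 (pow_pos (by omega) w)
  omega

/-- `L = C(2k+a-1,k-1)`, `W = C(k+a-1,k-1)`, `C' = C(k+a-2,a-1)`, `T = C(k-1+b,k-1)`.
`C' (k+a-1) = W a`, so `W ≤ 2 C'` (`a ≥ k`); `W ≥ T > (8·10⁶)^u`. If
`500000 dp F F > C' (L+1)`, put `s = C' / 500000`: `s (L+1) ≤ dp F F` (`kst_dp_right`), `s ≥ 2u`,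
`W ≤ 2·10⁶ s`; `kst_pow` with `X = Y = F`, `N = L+1`:
`s^u ≤ 2^u (L+1)^(u-1) (v-1) ≤ 4^u L^(u-1) (v-1)`, so `W^u ≤ (8·10⁶)^u L^(u-1) (v-1)`; with
`choose_bern`: `T ≤ (8·10⁶)^u (v-1)`. -/
theorem dp_few {k a b u v : ℕ} (hk : 2 ≤ k) (hu : 2 ≤ u) (hv : 2 ≤ v) (hb : 1 ≤ b)
    (hab : a + k = u * k + b)
    (hT : (8 * 10 ^ 6) ^ u * (v - 1) < (k - 1 + b).choose (k - 1))
    {α : Type*} [DecidableEq α] {F : Finset (Finset α)} (hUI : UI u v F)
    (hcard : F.card = (2 * k + a - 1).choose (k - 1) + 1) :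
    500000 * dp F F ≤ (k + a - 2).choose (a - 1) * F.card := by
  by_contra hcon
  push Not at hcon
  have hak : k + b ≤ a := by
    have h : 2 * k ≤ u * k := Nat.mul_le_mul_right k hu
    omega
  have hWC : (k + a - 1).choose (k - 1) ≤ 2 * (k + a - 2).choose (a - 1) := by
    have e1 : (k + a - 1).choose (k - 1) = (k + a - 2 + 1).choose (a - 1 + 1) := by
      have h1 : k + a - 2 + 1 = k + a - 1 := by omega
      have h2 : a - 1 + 1 = a := by omega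
      rw [h1, h2]
      exact Nat.choose_symm_of_eq_add (by omega)
    have e2 := Nat.add_one_mul_choose_eq (k + a - 2) (a - 1)
    rw [← e1] at e2
    have h3 : k + a - 2 + 1 ≤ 2 * (a - 1 + 1) := by omega
    have h4 : (k + a - 1).choose (k - 1) * (a - 1 + 1) ≤
        2 * (k + a - 2).choose (a - 1) * (a - 1 + 1) := by
      rw [← e2]
      calc (k + a - 2 + 1) * (k + a - 2).choose (a - 1) ≤
          (2 * (a - 1 + 1)) * (k + a - 2).choose (a - 1) := Nat.mul_le_mul_right _ h3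
        _ = _ := by ring
    exact Nat.le_of_mul_le_mul_right h4 (Nat.succ_pos _)
  have hWT : (k - 1 + b).choose (k - 1) ≤ (k + a - 1).choose (k - 1) :=
    Nat.choose_le_choose _ (by omega)
  have hPu := few_pow hu
  have hP1 : (8 * 10 ^ 6) ^ u ≤ (8 * 10 ^ 6) ^ u * (v - 1) :=
    Nat.le_mul_of_pos_right _ (by omega)
  set C' := (k + a - 2).choose (a - 1) with hC'
  set W := (k + a - 1).choose (k - 1) with hW
  set T := (k - 1 + b).choose (k - 1) with hTd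
  set s := C' / 500000 with hs
  have hs1 : 500000 * s ≤ C' := Nat.mul_div_le _ _
  have hs2 : C' < 500000 * (s + 1) := by
    rw [hs]
    exact Nat.lt_mul_div_succ _ (by norm_num)
  have hWs : W < 10 ^ 6 * (s + 1) := by
    calc W ≤ 2 * C' := hWC
      _ < 2 * (500000 * (s + 1)) := by omega
      _ = 10 ^ 6 * (s + 1) := by ring
  have h8 : 8 * 10 ^ 6 * u < 10 ^ 6 * (s + 1) := by
    generalize (8 * 10 ^ 6) ^ u = P at *
    generalize P * (v - 1) = Q at *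
    omega
  have hs3 : 2 * u ≤ s := by omega
  have hs4 : W ≤ 2 * 10 ^ 6 * s := by omega
  have hdp : s * F.card ≤ ∑ B ∈ F, (F.filter fun G => Disjoint G B).card := by
    rw [← kst_dp_right]
    have h1 : 500000 * (s * F.card) ≤ C' * F.card := by
      rw [← mul_assoc]
      exact Nat.mul_le_mul_right _ hs1
    omega
  have hkp := kst_pow (u := u) (v := v) (s := s) (N := F.card) (by omega) (by omega) hUI
    (Finset.Subset.refl F) (Finset.Subset.refl F) hs3 le_rfl hdp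
  rw [hcard] at hkp
  have hL : 1 ≤ (2 * k + a - 1).choose (k - 1) := Nat.choose_pos (by omega)
  exact few_num hu hL hT hs4 (choose_bern (by omega) (by omega) hab) hkp

end Pool.Agent.Lib.MP_fffc5a_co.V
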