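import Mathlib
import Pool.Agent.Lib.MP_fffc5a_co.V.Few
import Pool.Agent.Lib.MP_fffc5a_co.T.Dich

/-!
A large union-intersecting family is close to a star.
-/

set_option autoImplicit false

open Finset

namespace Pool.Agent.Lib.MP_fffc5a_co.V

/-- A subfamily with `L + 1` members, `dp_few`, `T.dichotomy` (`10⁶ ≤ T ≤ L`; `2k+a ≥ 20` because
`T ≤ 2^(2k+a)`). The co-star alternative `2 C(2k+a-1,k) ≤ 3 (L+1)` is impossible:
`C(2k+a-1,k) k = L (k+a) ≥ 2 k L`. -/
theorem close_star {k a b u v : ℕ} (hk : 2 ≤ k) (hu : 2 ≤ u) (hv : 2 ≤ v) (hb : 1 ≤ b)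
    (hab : a + k = u * k + b)
    (hT : (8 * 10 ^ 6) ^ u * (v - 1) < (k - 1 + b).choose (k - 1))
    {F : Finset (Finset (Fin (2 * k + a)))} (hF : ∀ s ∈ F, s.card = k) (hUI : UI u v F)
    (hcard : (2 * k + a - 1).choose (k - 1) < F.card) :
    ∃ x, 3 * (2 * k + a - 1).choose (k - 1) ≤ 4 * (F.filter fun s => x ∈ s).card := by
  have hak : k + b ≤ a := by
    have h : 2 * k ≤ u * k := Nat.mul_le_mul_right k hu
    omega
  have hTL : (k - 1 + b).choose (k - 1) ≤ (2 * k + a - 1).choose (k - 1) :=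
    Nat.choose_le_choose _ (by omega)
  have hT8 : 8 * 10 ^ 6 < (k - 1 + b).choose (k - 1) := by
    have h1 : (8 * 10 ^ 6) ^ 1 ≤ (8 * 10 ^ 6) ^ u := Nat.pow_le_pow_right (by norm_num) (by omega)
    have h2 : (8 * 10 ^ 6) ^ u * 1 ≤ (8 * 10 ^ 6) ^ u * (v - 1) :=
      Nat.mul_le_mul_left _ (by omega)
    rw [pow_one] at h1
    rw [mul_one] at h2
    exact lt_of_le_of_lt (h1.trans h2) hT
  have hL : 10 ^ 6 ≤ (2 * k + a - 1).choose (k - 1) := by omega
  have h20 : 20 ≤ 2 * k + a := by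
    by_contra h20
    have h21 : (k - 1 + b).choose (k - 1) ≤ 2 ^ (k - 1 + b) := Nat.choose_le_two_pow _ _
    have h22 : 2 ^ (k - 1 + b) ≤ 2 ^ 19 := Nat.pow_le_pow_right (by norm_num) (by omega)
    have h23 : 8 * 10 ^ 6 < 2 ^ 19 := lt_of_lt_of_le hT8 (h21.trans h22)
    norm_num at h23
  obtain ⟨F', hF'F, hF'card⟩ := Finset.exists_subset_card_eq (Nat.succ_le_of_lt hcard)
  have hF' : ∀ s ∈ F', s.card = k := fun s hs => hF s (hF'F hs)
  have hUI' : UI u v F' := fun A hA' B hB' => hUI A (hA'.trans hF'F) B (hB'.trans hF'F)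
  have hdp := dp_few hk hu hv hb hab hT hUI' hF'card
  obtain ⟨x, hx | hx⟩ :=
    T.dichotomy hk (by omega) (Fintype.card_fin _) h20 hF' hF'card hL hdp
  · refine ⟨x, hx.trans (Nat.mul_le_mul_left _ (Finset.card_le_card ?_))⟩
    exact Finset.filter_subset_filter _ hF'F
  · exfalso
    have h1 : (F'.filter fun s => x ∉ s).card ≤ (2 * k + a - 1).choose (k - 1) + 1 :=
      (Finset.card_filter_le _ _).trans hF'card.le
    have h2 := Nat.choose_succ_right_eq (2 * k + a - 1) (k - 1)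
    have e1 : k - 1 + 1 = k := by omega
    have e2 : 2 * k + a - 1 - (k - 1) = k + a := by omega
    rw [e1, e2] at h2
    have h3 : 2 * (2 * k + a - 1).choose (k - 1) ≤ (2 * k + a - 1).choose k := by
      refine Nat.le_of_mul_le_mul_right ?_ (show 0 < k by omega)
      calc 2 * (2 * k + a - 1).choose (k - 1) * k
          = (2 * k + a - 1).choose (k - 1) * (2 * k) := by ring
        _ ≤ (2 * k + a - 1).choose (k - 1) * (k + a) := Nat.mul_le_mul_left _ (by omega)
        _ = (2 * k + a - 1).choose k * k := h2.symm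
    omega

end Pool.Agent.Lib.MP_fffc5a_co.V
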