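import Mathlib
import Pool.Agent.Lib.MP_fffc5a_co.Descend

/-!
The descent for large `v`.
-/

set_option autoImplicit false

open Finset

namespace Pool.Agent.Lib.MP_fffc5a_co.V

/-- Copy of `level` (Level.lean). The only change: for `T ∈ D` the union has at most `u k`
elements, `a + k = u k + b`, so `h ≥ b` and `2 (v-1) ≤ C(k-1+b,k-1) ≤ C(k-1+h,k-1)`. -/
theorem level {α : Type*} [Fintype α] [DecidableEq α] {u v k a b h : ℕ} (hu : 1 ≤ u)
    (hv : 1 ≤ v) (hab : a + k = u * k + b)
    (hvb : 2 * (v - 1) ≤ (k - 1 + b).choose (k - 1)) (hk : 1 ≤ k) (hh : 1 ≤ h)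
    (hn : Fintype.card α = 2 * k + a)
    {F : Finset (Finset α)} (hF : ∀ s ∈ F, s.card = k) (hUI : UI u v F) {x : α}
    {X : Finset (Finset α)} (hXF : X ⊆ F.filter fun s => x ∉ s)
    (hX : ∀ T ⊆ X, T.card = u → k + a ≤ (T.biUnion id).card + h)
    {D : Finset (Finset (Finset α))}
    (hD : ∀ T ∈ D, T ⊆ X ∧ T.card = u ∧ (T.biUnion id).card + h = k + a)
    (hdisj : (D : Set (Finset (Finset α))).PairwiseDisjoint id) :
    u * D.card * ((k - 1 + h).choose h * a.choose (h + 1)) ≤
      2 * (u - 1) * (k + a).choose (h + 1) * (Miss F x k).card := by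
  have hXx : ∀ s ∈ X, x ∉ s := fun s hs => (mem_filter.1 (hXF hs)).2
  have hXF' : X ⊆ F := fun s hs => (mem_filter.1 (hXF hs)).1
  -- each `T`
  have hT : ∀ T ∈ D, (k - 1 + h).choose h ≤
      2 * ((Miss F x k).filter fun S => Disjoint S (T.biUnion id)).card := by
    intro T hTD
    obtain ⟨hTX, hTu, hTc⟩ := hD T hTD
    have hxU : x ∉ T.biUnion id := by
      intro hx
      rw [mem_biUnion] at hx
      obtain ⟨s, hs, hxs⟩ := hx
      exact hXx s (hTX hs) hxs
    have h1 := card_disj k hxU
    have h2 := disj_le_miss k hv hUI (hTX.trans hXF') hTu hxU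
      (fun s hs => subset_biUnion_of_mem id hs)
    rw [h1, hn] at h2
    have e1 : 2 * k + a - 1 - (T.biUnion id).card = k - 1 + h := by omega
    rw [e1] at h2
    have e2 : (k - 1 + h).choose (k - 1) = (k - 1 + h).choose h := by
      rw [← Nat.choose_symm_of_eq_add (show k - 1 + h = k - 1 + h from rfl)]
    rw [e2] at h2
    have hUc : (T.biUnion id).card ≤ u * k := by
      calc (T.biUnion id).card ≤ ∑ s ∈ T, (id s : Finset α).card := card_biUnion_le
        _ = ∑ s ∈ T, k := sum_congr rfl fun s hs => hF s (hXF' (hTX hs))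
        _ = u * k := by rw [sum_const, smul_eq_mul, hTu]
    have hbh : b ≤ h := by omega
    have e3 : 2 * (v - 1) ≤ (k - 1 + h).choose h := by
      calc 2 * (v - 1) ≤ (k - 1 + b).choose (k - 1) := hvb
        _ ≤ (k - 1 + h).choose (k - 1) := Nat.choose_le_choose _ (by omega)
        _ = (k - 1 + h).choose h := e2
    omega
  -- double counting
  have hsum1 : D.card * (k - 1 + h).choose h ≤
      2 * ∑ S ∈ Miss F x k, (D.filter fun T => Disjoint S (T.biUnion id)).card := by
    have h1 : ∑ T ∈ D, ((Miss F x k).filter fun S => Disjoint S (T.biUnion id)).card =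
        ∑ S ∈ Miss F x k, (D.filter fun T => Disjoint S (T.biUnion id)).card := by
      simp only [card_filter]
      exact sum_comm
    rw [← h1, mul_sum, ← smul_eq_mul, ← sum_const]
    exact sum_le_sum hT
  have hS : ∀ S ∈ Miss F x k, u * (D.filter fun T => Disjoint S (T.biUnion id)).card *
      a.choose (h + 1) ≤ (u - 1) * (k + a).choose (h + 1) := by
    intro S hS
    unfold Miss at hS
    rw [mem_filter, mem_powersetCard] at hS
    obtain ⟨⟨hS1, hS2⟩, -⟩ := hS
    have hxS : x ∉ S := fun hx => (mem_erase.1 (hS1 hx)).1 rfl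
    set D' := D.filter fun T => Disjoint S (T.biUnion id) with hD'
    have hD'D : ∀ T ∈ D', T ∈ D := fun T hT => (mem_filter.1 hT).1
    have hG : (D'.biUnion id).card = u * D'.card := by
      rw [card_biUnion]
      · have h5 : ∀ T ∈ D', (id T : Finset (Finset α)).card = u :=
          fun T hT => (hD T (hD'D T hT)).2.1
        rw [sum_congr rfl h5, sum_const, smul_eq_mul, mul_comm]
      · intro T hT T' hT' hne
        exact hdisj (hD'D T hT) (hD'D T' hT') hne
    have hY : (univ \ insert x S).card = k + a := by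
      rw [card_sdiff_of_subset (subset_univ _), card_univ, card_insert_of_notMem hxS, hS2, hn]
      omega
    rw [← hG]
    refine code_bound hu hY ?_ ?_
    · intro s hs
      rw [mem_biUnion] at hs
      obtain ⟨T, hT, hsT⟩ := hs
      simp only [id] at hsT
      have hsX : s ∈ X := (hD T (hD'D T hT)).1 hsT
      refine ⟨?_, hF s (hXF' hsX)⟩
      intro y hy
      rw [mem_sdiff]
      refine ⟨mem_univ y, ?_⟩
      intro hyi
      rcases mem_insert.1 hyi with rfl | hyS
      · exact hXx s hsX hy
      · have h3 := (mem_filter.1 hT).2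
        refine disjoint_left.1 h3 hyS ?_
        rw [mem_biUnion]
        exact ⟨s, hsT, hy⟩
    · intro T' hT' hT'u
      refine hX T' ?_ hT'u
      intro s hs
      have := hT' hs
      rw [mem_biUnion] at this
      obtain ⟨T, hT, hsT⟩ := this
      exact (hD T (hD'D T hT)).1 hsT
  have hsum2 : u * (∑ S ∈ Miss F x k, (D.filter fun T => Disjoint S (T.biUnion id)).card) *
      a.choose (h + 1) ≤ (Miss F x k).card * ((u - 1) * (k + a).choose (h + 1)) := by
    rw [mul_sum, sum_mul, ← smul_eq_mul (Miss F x k).card, ← sum_const]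
    exact sum_le_sum hS
  calc u * D.card * ((k - 1 + h).choose h * a.choose (h + 1))
      = u * (D.card * (k - 1 + h).choose h) * a.choose (h + 1) := by ring
    _ ≤ u * (2 * ∑ S ∈ Miss F x k, (D.filter fun T => Disjoint S (T.biUnion id)).card) *
        a.choose (h + 1) := by gcongr
    _ = 2 * (u * (∑ S ∈ Miss F x k, (D.filter fun T => Disjoint S (T.biUnion id)).card) *
        a.choose (h + 1)) := by ring
    _ ≤ 2 * ((Miss F x k).card * ((u - 1) * (k + a).choose (h + 1))) := by gcongr
    _ = 2 * (u - 1) * (k + a).choose (h + 1) * (Miss F x k).card := by ring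

/-- Copy of `descend` (Descend.lean) with `V.level`. -/
theorem descend {α : Type*} [Fintype α] [DecidableEq α] {u v k a b : ℕ} (hu : 1 ≤ u)
    (hv : 1 ≤ v) (hab : a + k = u * k + b)
    (hvb : 2 * (v - 1) ≤ (k - 1 + b).choose (k - 1)) (hk : 1 ≤ k)
    (hn : Fintype.card α = 2 * k + a)
    {F : Finset (Finset α)} (hF : ∀ s ∈ F, s.card = k) (hUI : UI u v F) {x : α} (h : ℕ)
    (ha : h + 1 ≤ a) (X : Finset (Finset α)) (hXF : X ⊆ F.filter fun s => x ∉ s)
    (hX : ∀ T ⊆ X, T.card = u → k + a ≤ (T.biUnion id).card + h) :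
    ∃ X₀ ⊆ X, Wide u (k + a) X₀ ∧
      (X.card : ℝ) ≤ X₀.card + (Miss F x k).card *
        (2 * (u - 1 : ℕ) * ∑ i ∈ Icc 1 h, ((k + a).choose (i + 1) : ℝ) /
          (a.choose (i + 1) * (k - 1 + i).choose i)) := by
  induction h generalizing X with
  | zero =>
    refine ⟨X, Subset.refl _, ?_, ?_⟩
    · intro T hT hTu
      simpa using hX T hT hTu
    · simp
  | succ h ih =>
    obtain ⟨D, hD, hDd, hmax⟩ := e12_max hu X hX
    have hX'X : X \ D.biUnion id ⊆ X := sdiff_subset
    obtain ⟨X₀, hX₀, hW, hle⟩ := ih (by omega) (X \ D.biUnion id) (hX'X.trans hXF) hmax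
    refine ⟨X₀, hX₀.trans hX'X, hW, ?_⟩
    have hlev := level hu hv hab hvb hk (show 1 ≤ h + 1 by omega) hn hF hUI hXF hX hD hDd
    have hU : (D.biUnion id).card = u * D.card := by
      rw [card_biUnion]
      · have h5 : ∀ T ∈ D, (id T : Finset (Finset α)).card = u := fun T hT => (hD T hT).2.1
        rw [sum_congr rfl h5, sum_const, smul_eq_mul, mul_comm]
      · intro T hT T' hT' hne
        exact hDd hT hT' hne
    have hsub : D.biUnion id ⊆ X := by
      intro s hs
      rw [mem_biUnion] at hs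
      obtain ⟨T, hT, hsT⟩ := hs
      exact (hD T hT).1 hsT
    have hcard : X.card = (X \ D.biUnion id).card + u * D.card := by
      rw [← hU, card_sdiff_of_subset hsub]
      have := card_le_card hsub
      omega
    have hA : (0 : ℝ) < a.choose (h + 1 + 1) := by
      exact_mod_cast Nat.choose_pos (by omega)
    have hB : (0 : ℝ) < (k - 1 + (h + 1)).choose (h + 1) := by
      exact_mod_cast Nat.choose_pos (by omega)
    have hlevR : (u * D.card : ℝ) * (((k - 1 + (h + 1)).choose (h + 1) : ℝ) *
        a.choose (h + 1 + 1)) ≤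
        2 * (u - 1 : ℕ) * (k + a).choose (h + 1 + 1) * (Miss F x k).card := by
      exact_mod_cast hlev
    have hterm : (u * D.card : ℝ) ≤ (Miss F x k).card * (2 * (u - 1 : ℕ) *
        (((k + a).choose (h + 1 + 1) : ℝ) /
          (a.choose (h + 1 + 1) * (k - 1 + (h + 1)).choose (h + 1)))) := by
      have e1 : ((Miss F x k).card : ℝ) * (2 * (u - 1 : ℕ) *
        (((k + a).choose (h + 1 + 1) : ℝ) /
          (a.choose (h + 1 + 1) * (k - 1 + (h + 1)).choose (h + 1)))) =
          (2 * (u - 1 : ℕ) * (k + a).choose (h + 1 + 1) * (Miss F x k).card) /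
          (((k - 1 + (h + 1)).choose (h + 1) : ℝ) * a.choose (h + 1 + 1)) := by
        field_simp
      rw [e1, le_div_iff₀ (by positivity)]
      exact hlevR
    have hcardR : (X.card : ℝ) = (X \ D.biUnion id).card + (u * D.card : ℝ) := by
      exact_mod_cast hcard
    rw [hcardR, sum_Icc_succ_top (by omega), mul_add, mul_add]
    linarith

end Pool.Agent.Lib.MP_fffc5a_co.V
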