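import Mathlib

/-!
Numerical lemmas for the descent.
-/

set_option autoImplicit false

open Finset

namespace Pool.Agent.Lib.MP_fffc5a_co.V

/-- the recursion for `C(4m,m)` -/
theorem numB_rec (m : ℕ) : (4 * (m + 1)).choose (m + 1) * ((3 * m + 3) * (3 * m + 2) * (3 * m + 1)) =
    4 * ((4 * m + 3) * (4 * m + 2) * (4 * m + 1)) * (4 * m).choose m := by
  have h1 := Nat.choose_mul_factorial_mul_factorial (show m ≤ 4 * m by omega)
  have h2 := Nat.choose_mul_factorial_mul_factorial (show m + 1 ≤ 4 * (m + 1) by omega)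
  have e1 : 4 * m - m = 3 * m := by omega
  have e2 : 4 * (m + 1) - (m + 1) = 3 * m + 3 := by omega
  rw [e1] at h1
  rw [e2] at h2
  have e3 : (4 * (m + 1)).factorial =
      (4 * m + 4) * ((4 * m + 3) * ((4 * m + 2) * ((4 * m + 1) * (4 * m).factorial))) := by
    rw [show 4 * (m + 1) = 4 * m + 3 + 1 by ring, Nat.factorial_succ, Nat.factorial_succ,
      Nat.factorial_succ, Nat.factorial_succ]
  have e4 : (3 * m + 3).factorial =
      (3 * m + 3) * ((3 * m + 2) * ((3 * m + 1) * (3 * m).factorial)) := by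
    rw [Nat.factorial_succ, Nat.factorial_succ, Nat.factorial_succ]
  rw [e3, e4, Nat.factorial_succ, ← h1] at h2
  have hpos : 0 < (m + 1) * m.factorial * (3 * m).factorial := by positivity
  apply Nat.eq_of_mul_eq_mul_left hpos
  calc (m + 1) * m.factorial * (3 * m).factorial *
        ((4 * (m + 1)).choose (m + 1) * ((3 * m + 3) * (3 * m + 2) * (3 * m + 1)))
      = (4 * (m + 1)).choose (m + 1) * ((m + 1) * m.factorial) *
          ((3 * m + 3) * ((3 * m + 2) * ((3 * m + 1) * (3 * m).factorial))) := by ring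
    _ = (4 * m + 4) * ((4 * m + 3) * ((4 * m + 2) * ((4 * m + 1) *
          ((4 * m).choose m * m.factorial * (3 * m).factorial)))) := h2
    _ = (m + 1) * m.factorial * (3 * m).factorial *
          (4 * ((4 * m + 3) * (4 * m + 2) * (4 * m + 1)) * (4 * m).choose m) := by ring

/-- `9^m ≤ 9^9 C(4m,m)` for `m ≥ 9` by induction:
`C(4m+4,m+1) (3m+3)(3m+2)(3m+1) = 4 (4m+3)(4m+2)(4m+1) C(4m,m)` and
`4 (4m+3)(4m+2)(4m+1) ≥ 9 (3m+3)(3m+2)(3m+1)`. -/
theorem four_choose (m : ℕ) (hm : 9 ≤ m) : 9 ^ m ≤ 9 ^ 9 * (4 * m).choose m := by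
  induction m, hm using Nat.le_induction with
  | base => exact Nat.le_mul_of_pos_right _ (Nat.choose_pos (by norm_num))
  | succ m hm ih =>
    have h1 := numB_rec m
    have h2 : 9 * ((3 * m + 3) * (3 * m + 2) * (3 * m + 1)) ≤
        4 * ((4 * m + 3) * (4 * m + 2) * (4 * m + 1)) := by
      obtain ⟨c, rfl⟩ := Nat.exists_eq_add_of_le hm
      ring_nf
      nlinarith [Nat.zero_le c, Nat.zero_le (c ^ 2), Nat.zero_le (c ^ 3)]
    have hpos : 0 < (3 * m + 3) * (3 * m + 2) * (3 * m + 1) := by positivity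
    apply Nat.le_of_mul_le_mul_right _ hpos
    calc 9 ^ (m + 1) * ((3 * m + 3) * (3 * m + 2) * (3 * m + 1))
        = 9 ^ m * (9 * ((3 * m + 3) * (3 * m + 2) * (3 * m + 1))) := by ring
      _ ≤ (9 ^ 9 * (4 * m).choose m) * (4 * ((4 * m + 3) * (4 * m + 2) * (4 * m + 1))) :=
          Nat.mul_le_mul ih h2
      _ = 9 ^ 9 * (4 * ((4 * m + 3) * (4 * m + 2) * (4 * m + 1)) * (4 * m).choose m) := by ring
      _ = 9 ^ 9 * ((4 * (m + 1)).choose (m + 1) * ((3 * m + 3) * (3 * m + 2) * (3 * m + 1))) := by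
          rw [h1]
      _ = 9 ^ 9 * (4 * (m + 1)).choose (m + 1) * ((3 * m + 3) * (3 * m + 2) * (3 * m + 1)) := by
          ring

theorem numB_lower (k m : ℕ) (hm : 1 ≤ m) (h1 : 3 * m ≤ k) :
    (4 * m).choose m ≤ (k + m).choose (k - 1) := by
  have e : (k + m).choose (k - 1) = (k + m).choose (m + 1) := by
    apply Nat.choose_symm_of_eq_add
    omega
  rw [e]
  have h2 : (4 * m).choose (m + 1) ≤ (k + m).choose (m + 1) :=
    Nat.choose_le_choose _ (by omega)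
  refine le_trans ?_ h2
  have h3 := Nat.choose_succ_right_eq (4 * m) m
  have h4 : (m + 1) * (4 * m).choose m ≤ (4 * m).choose m * (4 * m - m) := by
    rw [mul_comm]
    exact Nat.mul_le_mul_left _ (by omega)
  rw [← h3, mul_comm] at h4
  exact Nat.le_of_mul_le_mul_right h4 (by omega)

/-- `m = k/3`: `C(k + m, k-1) = C(k+m, m+1) ≥ C(4m,m)`, `2^k ≤ 4·8^m`, `(9/8)^m → ∞`. -/
theorem growth (u : ℕ) : ∃ k₀ : ℕ, ∀ k, k₀ ≤ k →
    16 * u * 2 ^ k ≤ (k + k / 3).choose (k - 1) := by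
  obtain ⟨m₀, hm₀⟩ := pow_unbounded_of_one_lt (64 * u * 9 ^ 9 : ℝ) (show (1 : ℝ) < 9 / 8 by norm_num)
  refine ⟨3 * (m₀ + 9), fun k hk => ?_⟩
  set m := k / 3 with hm
  have hm1 : m₀ + 9 ≤ m := by omega
  have hk1 : 3 * m ≤ k := by omega
  have hk2 : k ≤ 3 * m + 2 := by omega
  have h1 : (64 * u * 9 ^ 9 : ℝ) ≤ (9 / 8) ^ m :=
    hm₀.le.trans (pow_le_pow_right₀ (by norm_num) (by omega))
  have h2 : (64 * u * 9 ^ 9 : ℝ) * 8 ^ m ≤ 9 ^ m := by
    rw [div_pow, le_div_iff₀ (by positivity)] at h1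
    exact h1
  have h3 : 64 * u * 9 ^ 9 * 8 ^ m ≤ 9 ^ m := by exact_mod_cast h2
  have h4 := h3.trans (four_choose m (by omega))
  have h5 : 64 * u * 8 ^ m ≤ (4 * m).choose m := by
    apply Nat.le_of_mul_le_mul_left _ (show 0 < 9 ^ 9 by norm_num)
    calc 9 ^ 9 * (64 * u * 8 ^ m) = 64 * u * 9 ^ 9 * 8 ^ m := by ring
      _ ≤ _ := h4
  refine le_trans ?_ (h5.trans (numB_lower k m (by omega) hk1))
  have h6 : 2 ^ k ≤ 4 * 8 ^ m := by
    calc 2 ^ k ≤ 2 ^ (3 * m + 2) := Nat.pow_le_pow_right (by norm_num) hk2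
      _ = 4 * 8 ^ m := by rw [pow_add, pow_mul]; ring
  calc 16 * u * 2 ^ k ≤ 16 * u * (4 * 8 ^ m) := Nat.mul_le_mul_left _ h6
    _ = 64 * u * 8 ^ m := by ring

/-- the term -/
noncomputable def numBt (k a i : ℕ) : ℝ :=
  ((k + a).choose (i + 1) : ℝ) / (a.choose (i + 1) * (k - 1 + i).choose i)

theorem numB_one {k a : ℕ} (hk : 3 ≤ k) (ha : k + 1 ≤ a) : numBt k a 1 ≤ 4 / k := by
  have h1 : (((k + a).choose 2 : ℕ) : ℝ) = (k + a : ℝ) * (k + a - 1) / 2 := by
    rw [Nat.cast_choose_two]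
    push_cast
    ring
  have h2 : ((a.choose 2 : ℕ) : ℝ) = (a : ℝ) * (a - 1) / 2 := Nat.cast_choose_two ℝ a
  have h3 : (k - 1 + 1).choose 1 = k := by
    rw [Nat.choose_one_right]
    omega
  rw [numBt, show 1 + 1 = 2 from rfl, h1, h2, h3]
  have hk0 : (0 : ℝ) < k := by
    have : 0 < k := by omega
    exact_mod_cast this
  have ha1 : (k : ℝ) + 1 ≤ a := by exact_mod_cast ha
  have ha0 : (0 : ℝ) < a - 1 := by linarith
  have ha2 : (0 : ℝ) < a := by linarith
  rw [div_le_div_iff₀ (by positivity) hk0]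
  have h4 : ((k : ℝ) + a) * (k + a - 1) ≤ 4 * (a * (a - 1)) := by nlinarith
  calc ((k : ℝ) + a) * (k + a - 1) / 2 * k ≤ 4 * (a * (a - 1)) / 2 * k := by gcongr
    _ = 4 * (a * (a - 1) / 2 * k) := by ring

theorem numB_step {k a i : ℕ} (hk : 3 ≤ k) (ha : k + 1 ≤ a) (h3 : 3 * (i + 1) ≤ k) :
    numBt k a (i + 1) ≤ 2 / 3 * numBt k a i := by
  have hx := Nat.choose_succ_right_eq (k + a) (i + 1)
  have hy := Nat.choose_succ_right_eq a (i + 1)
  have hz := Nat.add_one_mul_choose_eq (k - 1 + i) i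
  have ez : k - 1 + i + 1 = k + i := by omega
  rw [ez] at hz
  have ez' : k - 1 + (i + 1) = k + i := by omega
  have hx' : (((k + a).choose (i + 1 + 1) : ℕ) : ℝ) * (i + 2) =
      ((k + a).choose (i + 1) : ℕ) * ((k : ℝ) + a - i - 1) := by
    have h := congrArg (Nat.cast (R := ℝ)) hx
    rw [Nat.cast_mul, Nat.cast_mul, Nat.cast_sub (by omega)] at h
    push_cast at h
    linear_combination h
  have hy' : ((a.choose (i + 1 + 1) : ℕ) : ℝ) * (i + 2) =
      (a.choose (i + 1) : ℕ) * ((a : ℝ) - i - 1) := by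
    have h := congrArg (Nat.cast (R := ℝ)) hy
    rw [Nat.cast_mul, Nat.cast_mul, Nat.cast_sub (by omega)] at h
    push_cast at h
    linear_combination h
  have hz' : (((k + i).choose (i + 1) : ℕ) : ℝ) * (i + 1) =
      ((k - 1 + i).choose i : ℕ) * ((k : ℝ) + i) := by
    have h := congrArg (Nat.cast (R := ℝ)) hz
    rw [Nat.cast_mul, Nat.cast_mul] at h
    push_cast at h
    linear_combination -h
  rw [numBt, numBt, ez']
  set x : ℝ := (((k + a).choose (i + 1) : ℕ) : ℝ) with hxdef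
  set x' : ℝ := (((k + a).choose (i + 1 + 1) : ℕ) : ℝ) with hxdef'
  set y : ℝ := ((a.choose (i + 1) : ℕ) : ℝ) with hydef
  set y' : ℝ := ((a.choose (i + 1 + 1) : ℕ) : ℝ) with hydef'
  set z : ℝ := (((k - 1 + i).choose i : ℕ) : ℝ) with hzdef
  set z' : ℝ := (((k + i).choose (i + 1) : ℕ) : ℝ) with hzdef'
  have hy0 : 0 < y := by
    rw [hydef]
    exact_mod_cast Nat.choose_pos (by omega)
  have hy0' : 0 < y' := by
    rw [hydef']
    exact_mod_cast Nat.choose_pos (by omega)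
  have hz0 : 0 < z := by
    rw [hzdef]
    exact_mod_cast Nat.choose_pos (by omega)
  have hz0' : 0 < z' := by
    rw [hzdef']
    exact_mod_cast Nat.choose_pos (by omega)
  have hx0 : 0 ≤ x := Nat.cast_nonneg _
  have key : 3 * ((k : ℝ) + a - i - 1) * (i + 1) ≤ 2 * (a - i - 1) * (k + i) := by
    have h4 : (3 : ℝ) * (i + 1) ≤ k := by exact_mod_cast h3
    have h5 : (k : ℝ) + 1 ≤ a := by exact_mod_cast ha
    have hi0 : (0 : ℝ) ≤ i := Nat.cast_nonneg _
    have hA : (k : ℝ) - i ≤ a - i - 1 := by linarith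
    set A : ℝ := (a : ℝ) - i - 1
    have hA0 : 0 ≤ A := by linarith
    have e1 : (k : ℝ) + a - i - 1 = k + A := by ring
    rw [e1]
    have s1 : 3 * ((k : ℝ) + A) * (i + 1) ≤ k * (k + A) := by nlinarith
    have s2 : (k : ℝ) * (k + A) ≤ 2 * A * (k + i) := by
      have s3 : ((k : ℝ) - i) * (k + 2 * i) ≤ A * (k + 2 * i) :=
        mul_le_mul_of_nonneg_right hA (by linarith)
      nlinarith
    exact s1.trans s2
  rw [← mul_div_assoc, div_le_div_iff₀ (by positivity) (by positivity)]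
  have hi2 : (0 : ℝ) < (i + 2) * (i + 1) := by positivity
  refine le_of_mul_le_mul_right ?_ hi2
  calc x' * (y * z) * ((i + 2) * (i + 1)) = (x' * (i + 2)) * (y * z) * (i + 1) := by ring
    _ = x * y * z * (((k : ℝ) + a - i - 1) * (i + 1)) := by rw [hx']; ring
    _ ≤ x * y * z * (2 / 3 * ((a - i - 1) * (k + i))) := by
        apply mul_le_mul_of_nonneg_left _ (by positivity)
        linarith
    _ = 2 / 3 * x * ((y * (a - i - 1)) * (z * (k + i))) := by ring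
    _ = 2 / 3 * x * ((y' * (i + 2)) * (z' * (i + 1))) := by rw [hy', hz']
    _ = 2 / 3 * x * (y' * z') * ((i + 2) * (i + 1)) := by ring

theorem numB_bound {k a : ℕ} (hk : 3 ≤ k) (ha : k + 1 ≤ a) (i : ℕ) (h : 3 * (i + 1) ≤ k) :
    numBt k a (i + 1) ≤ 4 / k * (2 / 3) ^ i := by
  induction i with
  | zero => rw [pow_zero, mul_one]; exact numB_one hk ha
  | succ i ih =>
    refine (numB_step hk ha (by omega)).trans ?_
    calc 2 / 3 * numBt k a (i + 1) ≤ 2 / 3 * (4 / k * (2 / 3) ^ i) :=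
          mul_le_mul_of_nonneg_left (ih (by omega)) (by norm_num)
      _ = 4 / k * (2 / 3) ^ (i + 1) := by ring

theorem numB_sum {k a : ℕ} (hk : 3 ≤ k) (ha : k + 1 ≤ a) (n : ℕ) (h : 3 * n ≤ k) :
    ∑ i ∈ Icc 1 n, numBt k a i ≤ 12 / k * (1 - (2 / 3) ^ n) := by
  induction n with
  | zero => simp
  | succ n ih =>
    rw [Finset.sum_Icc_succ_top (by omega)]
    have h1 := ih (by omega)
    have h2 := numB_bound hk ha n h
    refine (add_le_add h1 h2).trans (le_of_eq ?_)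
    rw [pow_succ]
    ring

/-- Term `t i = C(k+a,i+1) / (C(a,i+1) C(k-1+i,i))`: `t 1 = (k+a)(k+a-1)/(a(a-1)k) ≤ 4/k`,
`t (i+1) / t i = (k+a-i-1)(i+1) / ((a-i-1)(k+i)) ≤ 2/3` for `3 (i+1) ≤ k`, because
`3 (i+1) ≤ k`, `k (k + (a-i-1)) ≤ 2 (a-i-1)(k+i)`. So `t i ≤ (4/k) (2/3)^(i-1)`. -/
theorem term_sum {k a : ℕ} (hk : 3 ≤ k) (ha : k + 1 ≤ a) :
    ∑ i ∈ Icc 1 (k / 3), ((k + a).choose (i + 1) : ℝ) /
      (a.choose (i + 1) * (k - 1 + i).choose i) ≤ 12 / k := by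
  have h1 := numB_sum hk ha (k / 3) (by omega)
  refine h1.trans ?_
  have hk0 : (0 : ℝ) < k := by
    have : 0 < k := by omega
    exact_mod_cast this
  have h2 : (0 : ℝ) ≤ (2 / 3) ^ (k / 3) := by positivity
  have h3 : (0 : ℝ) ≤ 12 / k := by positivity
  nlinarith

end Pool.Agent.Lib.MP_fffc5a_co.V
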