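import Mathlib
import Pool.Agent.Lib.MP_fffc5a_co.V.Desc
import Pool.Agent.Lib.MP_fffc5a_co.V.NumB

/-!
Few members outside the star: the end of the proof.
-/

set_option autoImplicit false

open Finset

namespace Pool.Agent.Lib.MP_fffc5a_co.V

private theorem card_union_le_mul {α : Type*} [DecidableEq α] {u k : ℕ} {F : Finset (Finset α)}
    (hF : ∀ s ∈ F, s.card = k) {T : Finset (Finset α)} (hT : T ⊆ F) (hTu : T.card = u) :
    (T.biUnion id).card ≤ u * k := by
  refine card_biUnion_le.trans ?_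
  have h : ∑ s ∈ T, (id s : Finset α).card = ∑ _s ∈ T, k :=
    Finset.sum_congr rfl fun s hs => hF s (hT hs)
  rw [h, sum_const, hTu, smul_eq_mul]

private theorem choose_mono' {k h h' : ℕ} (hh : h ≤ h') :
    (k - 1 + h).choose (k - 1) ≤ (k - 1 + h').choose (k - 1) :=
  Nat.choose_le_choose _ (by omega)

/-- `T` a set of `u` members without `x`, `w` = size of its union `≤ u k`, `w + h = k + a`,
`h ≥ b ≥ 1`; `card_disj`, `disj_le_miss`: `C(k-1+h,k-1) ≤ |Miss| + (v-1)` and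
`2 (v-1) ≤ C(k-1+b,k-1) ≤ C(k-1+h,k-1)`. -/
theorem miss_large {α : Type*} [Fintype α] [DecidableEq α] {u v k a b : ℕ}
    (hv : 1 ≤ v) (hk : 1 ≤ k) (hab : a + k = u * k + b)
    (hvb : 2 * (v - 1) ≤ (k - 1 + b).choose (k - 1))
    (hn : Fintype.card α = 2 * k + a)
    {F : Finset (Finset α)} (hF : ∀ s ∈ F, s.card = k) (hUI : UI u v F) {x : α}
    {T : Finset (Finset α)} (hT : T ⊆ F.filter fun s => x ∉ s) (hTu : T.card = u) :
    ∃ h, b ≤ h ∧ (T.biUnion id).card + h = k + a ∧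
      (k - 1 + h).choose (k - 1) ≤ 2 * (Miss F x k).card := by
  have hTF : T ⊆ F := hT.trans (filter_subset _ _)
  have hw := card_union_le_mul hF hTF hTu
  have hxW : x ∉ T.biUnion id := by
    intro hx
    obtain ⟨s, hs, hxs⟩ := mem_biUnion.1 hx
    exact (mem_filter.1 (hT hs)).2 hxs
  refine ⟨k + a - (T.biUnion id).card, by omega, by omega, ?_⟩
  have h1 := disj_le_miss k hv hUI hTF hTu hxW (fun s hs => subset_biUnion_of_mem id hs)
  rw [card_disj k hxW, hn] at h1
  have h2 : ((Miss F x k).filter fun S => Disjoint S (T.biUnion id)).card ≤ (Miss F x k).card :=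
    card_le_card (filter_subset _ _)
  have h3 : 2 * k + a - 1 - (T.biUnion id).card = k - 1 + (k + a - (T.biUnion id).card) := by
    omega
  rw [h3] at h1
  have h4 : (k - 1 + b).choose (k - 1) ≤
      (k - 1 + (k + a - (T.biUnion id).card)).choose (k - 1) := choose_mono' (by omega)
  omega

/-- Small `k`: a set `T` of `u` members without `x` (`|E| = |Miss| + u`, `card_add_miss`) and
`miss_large`: `16 u 2^k ≤ C(k-1+b,k-1) ≤ 2 |Miss| < 2 |E| < 16 u 2^k`. -/
theorem tiny {u v k a b : ℕ} (hu : 1 ≤ u) (hv : 1 ≤ v) (hk : 1 ≤ k)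
    (hab : a + k = u * k + b) (hvb : 2 * (v - 1) ≤ (k - 1 + b).choose (k - 1))
    (hT : 16 * u * 2 ^ k ≤ (k - 1 + b).choose (k - 1))
    {F : Finset (Finset (Fin (2 * k + a)))} (hF : ∀ s ∈ F, s.card = k) (hUI : UI u v F)
    (x : Fin (2 * k + a)) (hcard : F.card = (2 * k + a - 1).choose (k - 1) + u)
    (hE : (F.filter fun s => x ∉ s).card < 8 * u * 2 ^ k) : False := by
  have h1 := card_add_miss hk hF x
  rw [Fintype.card_fin, hcard] at h1
  have h2 : u ≤ (F.filter fun s => x ∉ s).card := by omega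
  obtain ⟨T, hTE, hTu⟩ := exists_subset_card_eq h2
  obtain ⟨h, hbh, -, h3⟩ := miss_large hv hk hab hvb (Fintype.card_fin _) hF hUI hTE hTu
  have h4 : (k - 1 + b).choose (k - 1) ≤ (k - 1 + h).choose (k - 1) := choose_mono' hbh
  have h5 : 16 * u * 2 ^ k = 2 * (8 * u * 2 ^ k) := by ring
  omega

/-- `h₁ = k/3`. `C(k-1+h,k-1) ≤ 2 |Miss| < 16 u 2^k ≤ C(k-1+(h₁+1),k-1)` for the `h` of
`miss_large`, so `h ≤ h₁`. `descend` with `X = E`, `h = h₁`: `X₀` is wide, a `u`-subset of `X₀`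
would have a union with at least `k + a > u k` elements, so `|X₀| ≤ u - 1`; `term_sum`:
`|E| ≤ (u-1) + |Miss| (2 (u-1) 12 / k) ≤ (u-1) + |Miss|`, but `|E| = |Miss| + u`. -/
theorem small {u v k a b : ℕ} (hu : 2 ≤ u) (hv : 1 ≤ v) (hb : 1 ≤ b)
    (hab : a + k = u * k + b) (hvb : 2 * (v - 1) ≤ (k - 1 + b).choose (k - 1))
    (hk3 : 3 ≤ k) (hk24 : 24 * (u - 1) ≤ k)
    (hgr : 16 * u * 2 ^ k ≤ (k + k / 3).choose (k - 1))
    {F : Finset (Finset (Fin (2 * k + a)))} (hF : ∀ s ∈ F, s.card = k) (hUI : UI u v F)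
    (x : Fin (2 * k + a)) (hcard : F.card = (2 * k + a - 1).choose (k - 1) + u)
    (hE : (F.filter fun s => x ∉ s).card < 8 * u * 2 ^ k) : False := by
  have hk : 1 ≤ k := by omega
  have h1 := card_add_miss hk hF x
  rw [Fintype.card_fin, hcard] at h1
  have h5 : 16 * u * 2 ^ k = 2 * (8 * u * 2 ^ k) := by ring
  have h2k : 2 * k ≤ u * k := Nat.mul_le_mul_right k hu
  have hak : k + 1 ≤ a := by omega
  have hX : ∀ T ⊆ F.filter (fun s => x ∉ s), T.card = u → k + a ≤ (T.biUnion id).card + k / 3 := by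
    intro T hTE hTu
    obtain ⟨h, hbh, h6, h3⟩ := miss_large hv hk hab hvb (Fintype.card_fin _) hF hUI hTE hTu
    have h7 : h ≤ k / 3 := by
      by_contra hcon
      rw [not_le] at hcon
      have h8 : (k + k / 3).choose (k - 1) ≤ (k - 1 + h).choose (k - 1) :=
        Nat.choose_le_choose _ (by omega)
      omega
    omega
  obtain ⟨X₀, hX₀, hW, hle⟩ := descend (by omega : 1 ≤ u) hv hab hvb hk (Fintype.card_fin _) hF hUI
    (k / 3) (by omega) (F.filter fun s => x ∉ s) Subset.rfl hX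
  have hX0 : X₀.card ≤ u - 1 := by
    by_contra hcon
    have h8 : u ≤ X₀.card := by omega
    obtain ⟨T, hTX, hTu⟩ := exists_subset_card_eq h8
    have h9 := hW T hTX hTu
    have h10 := card_union_le_mul hF ((hTX.trans hX₀).trans (filter_subset _ _)) hTu
    omega
  have hts := term_sum hk3 hak
  have hkpos : (0 : ℝ) < k := by exact_mod_cast hk
  have hu24 : (24 : ℝ) * ((u - 1 : ℕ) : ℝ) ≤ k := by exact_mod_cast hk24
  have hfac : 2 * ((u - 1 : ℕ) : ℝ) * ∑ i ∈ Icc 1 (k / 3), ((k + a).choose (i + 1) : ℝ) /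
      (a.choose (i + 1) * (k - 1 + i).choose i) ≤ 1 := by
    have h11 : 2 * ((u - 1 : ℕ) : ℝ) * ∑ i ∈ Icc 1 (k / 3), ((k + a).choose (i + 1) : ℝ) /
        (a.choose (i + 1) * (k - 1 + i).choose i) ≤ 2 * ((u - 1 : ℕ) : ℝ) * (12 / k) :=
      mul_le_mul_of_nonneg_left hts (by positivity)
    refine h11.trans ?_
    rw [mul_div_assoc', div_le_one hkpos]
    linarith
  have hM : (0 : ℝ) ≤ ((Miss F x k).card : ℝ) := Nat.cast_nonneg _
  have h12 : ((F.filter fun s => x ∉ s).card : ℝ) ≤ X₀.card + (Miss F x k).card := by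
    refine hle.trans ?_
    have := mul_le_mul_of_nonneg_left hfac hM
    linarith
  have h13 : (F.filter fun s => x ∉ s).card ≤ X₀.card + (Miss F x k).card := by exact_mod_cast h12
  omega

end Pool.Agent.Lib.MP_fffc5a_co.V
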