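import Mathlib
import Pool.Agent.Lib.MP_fffc5a_co.V.Close
import Pool.Agent.Lib.MP_fffc5a_co.V.Big
import Pool.Agent.Lib.MP_fffc5a_co.V.Small

/-!
The upper bound.
-/

set_option autoImplicit false

open Finset

namespace Pool.Agent.Lib.MP_fffc5a_co.V

/-- `k₀` = maximum of `growth u`, `24 (u-1)`, `3`; `C = (8·10⁶)^u + 1 + 16 u 2^k₀`. `v ≥ 2`, so
`k = 1` is impossible (`C(n-u-1,0) = 1 < C`). `n = 2k + a`, `a + k = u k + b`, `b ≥ 1`,
`n - u k - 1 = k - 1 + b`. If `|F| ≥ L + u` take a subfamily with exactly `L + u` members,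
`close_star`, `extras_few`, `tiny` for `k < k₀` (`C ≥ 16 u 2^k`), `small` for `k ≥ k₀`. -/
theorem upper {u : ℕ} (hu : 2 ≤ u) : ∃ C : ℕ, ∀ n k v : ℕ, 1 ≤ k → (u + 1) * k < n → u ≤ v →
    C * (v - 1) ≤ (n - u * k - 1).choose (k - 1) →
    ∀ F : Finset (Finset (Fin n)), (∀ s ∈ F, s.card = k) → UI u v F →
      F.card ≤ (n - 1).choose (k - 1) + (u - 1) := by
  obtain ⟨k1, hk1⟩ := growth u
  obtain ⟨k₀, hk₀⟩ : ∃ k₀, k₀ = max k1 (max (24 * (u - 1)) 3) := ⟨_, rfl⟩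
  obtain ⟨M, hM⟩ : ∃ M, M = (8 * 10 ^ 6) ^ u := ⟨_, rfl⟩
  refine ⟨M + 1 + 16 * u * 2 ^ k₀, ?_⟩
  intro n k v hk hn huv hC F hF hUI
  have hM1 : 1 ≤ M := by
    rw [hM]
    exact Nat.one_le_pow _ _ (by norm_num)
  have h2k₀ : 1 ≤ 2 ^ k₀ := Nat.one_le_two_pow
  obtain ⟨w, hw⟩ : ∃ w, v = w + 2 := ⟨v - 2, by omega⟩
  have hv1 : v - 1 = w + 1 := by omega
  have hlow : (M + 1 + 16 * u * 2 ^ k₀) ≤ (n - u * k - 1).choose (k - 1) := by
    refine le_trans ?_ hC
    rw [hv1]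
    exact Nat.le_mul_of_pos_right _ (Nat.succ_pos w)
  -- `k = 1` is impossible
  have hk2 : 2 ≤ k := by
    by_contra hcon
    have h1 : k = 1 := by omega
    rw [h1] at hlow
    norm_num at hlow
    omega
  obtain ⟨a, rfl⟩ : ∃ a, n = 2 * k + a := by
    refine ⟨n - 2 * k, ?_⟩
    have h1 : 2 * k ≤ (u + 1) * k := Nat.mul_le_mul_right k (by omega)
    omega
  obtain ⟨b, hb⟩ : ∃ b, 2 * k + a = (u + 1) * k + b := ⟨2 * k + a - (u + 1) * k, by omega⟩
  have huk : (u + 1) * k = u * k + k := by ring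
  have hb1 : 1 ≤ b := by omega
  have hab : a + k = u * k + b := by omega
  have hT : 2 * k + a - u * k - 1 = k - 1 + b := by omega
  rw [hT] at hC hlow
  by_contra hcon
  push Not at hcon
  have hge : (2 * k + a - 1).choose (k - 1) + u ≤ F.card := by omega
  obtain ⟨F', hF'F, hF'c⟩ := exists_subset_card_eq hge
  have hF' : ∀ s ∈ F', s.card = k := fun s hs => hF s (hF'F hs)
  have hUI' : UI u v F' := fun A hA B hB => hUI A (hA.trans hF'F) B (hB.trans hF'F)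
  have hcard : (2 * k + a - 1).choose (k - 1) < F'.card := by omega
  have hTM : (8 * 10 ^ 6) ^ u * (v - 1) < (k - 1 + b).choose (k - 1) := by
    rw [← hM, hv1]
    rw [hv1] at hC
    refine lt_of_lt_of_le ?_ hC
    have h1 : 1 ≤ 16 * u * 2 ^ k₀ * (w + 1) + (w + 1) := by omega
    calc M * (w + 1) < M * (w + 1) + (16 * u * 2 ^ k₀ * (w + 1) + (w + 1)) := by omega
      _ = (M + 1 + 16 * u * 2 ^ k₀) * (w + 1) := by ring
  have hvb : 2 * (v - 1) ≤ (k - 1 + b).choose (k - 1) := by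
    refine le_trans ?_ hC
    exact Nat.mul_le_mul_right _ (by omega)
  obtain ⟨x, hx⟩ := close_star hk2 hu (by omega) hb1 hab hTM hF' hUI' hcard
  have hE := extras_few hk2 hu (by omega) hb1 hab hTM hF' hUI' x hcard hx
  rcases Nat.lt_or_ge k k₀ with hkk | hkk
  · refine tiny (by omega) (by omega) hk hab hvb ?_ hF' hUI' x hF'c hE
    refine le_trans ?_ hlow
    have h1 : 2 ^ k ≤ 2 ^ k₀ := Nat.pow_le_pow_right (by norm_num) hkk.le
    have h2 : 16 * u * 2 ^ k ≤ 16 * u * 2 ^ k₀ := Nat.mul_le_mul_left _ h1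
    omega
  · have h1 : k1 ≤ k := by
      rw [hk₀] at hkk
      exact (le_max_left _ _).trans hkk
    have h2 : 24 * (u - 1) ≤ k := by
      rw [hk₀] at hkk
      exact ((le_max_left _ _).trans (le_max_right _ _)).trans hkk
    have h3 : 3 ≤ k := by
      rw [hk₀] at hkk
      exact ((le_max_right _ _).trans (le_max_right _ _)).trans hkk
    exact small hu (by omega) hb1 hab hvb h3 h2 (hk1 k h1) hF' hUI' x hF'c hE

end Pool.Agent.Lib.MP_fffc5a_co.V
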